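import Pool.Agent.N98.AddC
import Pool.Agent.W973.CUT2
import Pool.Agent.W558.S2.Loc

/-!
Restriction of a model to the divisor of a discrete valuation ring.
-/

set_option autoImplicit false
set_option linter.unusedVariables false
set_option linter.unusedSimpArgs false
set_option linter.unusedSectionVars false

universe u

open Pool.Agent.W558 Pool.Agent.W973.CUT Pool.Agent.W973.CUT2

namespace Pool.Agent.N98

section model3

variable {k K L : Type u} [Field k] [Field K] [Algebra k K] [Field L] [Algebra k L]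
  {Q : Subalgebra k K} (π : Q →ₐ[k] L) {T I T' I' : Type}

/-- The restriction of a model to a divisor. -/
theorem exists_model3 (hK : ∀ x : K, (∃ a b : Q, π b ≠ 0 ∧ x * b = a) ∨
    (∃ a b : Q, π b ≠ 0 ∧ x⁻¹ * b = a)) (hinv : ∀ b : Q, π b ≠ 0 → (b : K)⁻¹ ∈ Q)
    (M : LM (⊥ : Subalgebra k K) ⊤ T I)
    (τ : T' → T) (ι : I' → I) (hcov : ∀ t, M.A t ≤ Q → ∃ t', τ t' = t) (t0 : T')
    (hAQ : ∀ t, M.A (τ t) ≤ Q) (hxQ' : ∀ t i, (M.x (τ t) (ι i))⁻¹ ∈ Q) (y : T' → K)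
    (hy : ∀ t, y t ∈ M.A (τ t))
    (hy0 : ∀ t, y t ≠ 0) (hyπ : ∀ t, pq π (y t) = 0)
    (hker : ∀ t, LK π (M.A (τ t)) (y t))
    (hsm : ∀ t, Algebra.Smooth k (im π (M.A (τ t)) (hAQ t)))
    (hS : ∀ t, SNC (M.A (τ t)) (fun o : Option I' => o.elim (y t) (fun i => M.x (τ t) (ι i)))) :
    ∃ M' : LM (⊥ : Subalgebra k L) ⊤ T' I', (M'.A = fun t => im π (M.A (τ t)) (hAQ t)) ∧
      M'.x = fun t i => pq π (M.x (τ t) (ι i)) := by
  have hHQ : ∀ t, M.H (τ t) / M.H (τ t0) ∈ Q := fun t => hAQ t0 (M.rt (τ t0) (τ t))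
  have hHQ' : ∀ t, (M.H (τ t) / M.H (τ t0))⁻¹ ∈ Q := fun t => by
    rw [inv_div]; exact hAQ t (M.rt (τ t) (τ t0))
  have hH0 : ∀ t, M.H (τ t) / M.H (τ t0) ≠ 0 := fun t => div_ne_zero (M.H0 _) (M.H0 _)
  have hHdiv : ∀ t t', pq π (M.H (τ t') / M.H (τ t0)) / pq π (M.H (τ t) / M.H (τ t0)) =
      pq π (M.H (τ t') / M.H (τ t)) := by
    intro t t'
    rw [← pq_div π (hHQ t') (hH0 t) (hHQ t) (hHQ' t),
      div_div_div_cancel_right₀ (M.H0 (τ t0))]
  have hxQ : ∀ t i, M.x (τ t) (ι i) ∈ Q := fun t i => hAQ t (M.xA _ _)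
  have hφy : ∀ t (κ : Type u) [Field κ] [Algebra k κ]
      (φ' : im π (M.A (τ t)) (hAQ t) →ₐ[k] κ),
      (φ'.comp (qm π (M.A (τ t)) (hAQ t))) ⟨y t, hy t⟩ = 0 := by
    intro t κ _ _ φ'
    change φ' (qm π (M.A (τ t)) (hAQ t) ⟨y t, hy t⟩) = 0
    rw [qm_apply π (hAQ t) (hy t)]
    have : (⟨pq π (y t), pq_mem π (hAQ t) (hy t)⟩ : im π (M.A (τ t)) (hAQ t)) = 0 :=
      Subtype.ext (hyπ t)
    rw [this, map_zero]
  refine ⟨{ A := fun t => im π (M.A (τ t)) (hAQ t)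
            H := fun t => pq π (M.H (τ t) / M.H (τ t0))
            x := fun t i => pq π (M.x (τ t) (ι i))
            sm := hsm
            base := fun t => bot_le
            H0 := fun t => pq_ne π (hH0 t) (hHQ t) (hHQ' t)
            HR := fun t => trivial
            rt := ?_
            gl := ?_
            dn := fun t f hf => ⟨0, trivial⟩
            cv := ?_
            xA := fun t i => pq_mem π _ (M.xA _ _)
            x0 := fun t i => pq_ne π (M.x0 _ _) (hxQ t i) (hxQ' t i)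
            gi := ?_
            snc := ?_ }, rfl, rfl⟩
  · intro t t'
    rw [hHdiv]
    exact pq_mem π (hAQ t) (M.rt _ _)
  · intro t t' f hf
    obtain ⟨a, ha, rfl⟩ := (mem_im π).1 hf
    obtain ⟨n, hn⟩ := M.gl (τ t) (τ t') a ha
    refine ⟨n, ?_⟩
    rw [hHdiv, ← pq_pow π (hAQ _ (M.rt (τ t) (τ t'))),
      ← pq_mul π (Q.pow_mem (hAQ _ (M.rt (τ t) (τ t'))) n) (hAQ t' ha)]
    exact pq_mem π (hAQ t) hn
  · intro V hV
    obtain ⟨t, ht⟩ := M.cv (pullV π hK V) (by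
      intro a ha
      obtain ⟨r, rfl⟩ := Algebra.mem_bot.1 ha
      refine ⟨algebraMap k Q r, 1, by rw [map_one]; exact one_ne_zero, ?_, ?_⟩
      · rw [Subalgebra.coe_one, mul_one]
        rfl
      · rw [map_one, div_one, AlgHom.commutes]
        exact hV _ (Subalgebra.algebraMap_mem _ r))
    have htQ : M.A t ≤ Q := by
      intro f hf
      obtain ⟨a, b, hb, h1, -⟩ := ht f hf
      have hb0 : (b : K) ≠ 0 := by
        intro h0
        apply hb
        have : b = 0 := Subtype.ext h0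
        rw [this, map_zero]
      have : f = a * (b : K)⁻¹ := by
        rw [← h1, mul_assoc, mul_inv_cancel₀ hb0, mul_one]
      rw [this]
      exact Q.mul_mem a.2 (hinv b hb)
    obtain ⟨t', rfl⟩ := hcov t htQ
    refine ⟨t', ?_⟩
    intro f hf
    obtain ⟨a, ha, rfl⟩ := (mem_im π).1 hf
    exact pullV_pq π (hAQ t' ha) (ht a ha)
  · intro t t' i
    obtain ⟨n, hn⟩ := M.gi (τ t) (τ t') (ι i)
    refine ⟨n, ?_⟩
    have h1 : M.x (τ t') (ι i) / M.x (τ t) (ι i) ∈ Q := by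
      rw [div_eq_mul_inv]
      exact Q.mul_mem (hxQ t' i) (hxQ' t i)
    rw [hHdiv, ← pq_pow π (hAQ _ (M.rt (τ t) (τ t'))),
      ← pq_div π (hxQ t' i) (M.x0 _ _) (hxQ t i) (hxQ' t i),
      ← pq_mul π (Q.pow_mem (hAQ _ (M.rt (τ t) (τ t'))) n) h1]
    exact pq_mem π (hAQ t) hn
  · intro t κ _ _ φ' i hi hφ'
    have hφ : (φ'.comp (qm π (M.A (τ t)) (hAQ t))) ⟨M.x (τ t) (ι i), M.xA _ _⟩ = 0 := by
      change φ' (qm π (M.A (τ t)) (hAQ t) ⟨M.x (τ t) (ι i), M.xA _ _⟩) = 0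
      rw [qm_apply π (hAQ t) (M.xA _ _)]
      exact hφ'
    obtain ⟨D, hD1, hD2⟩ := hS t κ (φ'.comp (qm π (M.A (τ t)) (hAQ t))) (some i) (M.xA _ _) hφ
    have hDy : D.D ⟨y t, hy t⟩ = 0 := hD2 none (hy t) (by simp) (hφy t κ φ')
    obtain ⟨E, hE⟩ := desc2 π (hAQ t) (hy t) (hy0 t) (hyπ t) (hker t) φ' D hDy
    refine ⟨E, (hE _ (M.xA _ _)).trans hD1, ?_⟩
    intro j hj hji hφj
    refine (hE _ (M.xA _ _)).trans (hD2 (some j) (M.xA _ _) (by simpa using hji) ?_)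
    change φ' (qm π (M.A (τ t)) (hAQ t) ⟨M.x (τ t) (ι j), M.xA _ _⟩) = 0
    rw [qm_apply π (hAQ t) (M.xA _ _)]
    exact hφj

end model3

section cut

variable {k K L : Type u} [Field k] [Field K] [Algebra k K] [Field L] [Algebra k L]
  {Q : Subalgebra k K} (π : Q →ₐ[k] L)

lemma pq_algebraMap (r : k) : pq π (algebraMap k K r) = algebraMap k L r := by
  rw [pq_of π (Q.algebraMap_mem r)]
  exact π.commutes r

/-- The value of the divisor at the generic point. -/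
def gp {A : Subalgebra k K} (h : A ≤ Q) : A →ₐ[k] L := π.comp (Subalgebra.inclusion h)

lemma gp_apply {A : Subalgebra k K} (h : A ≤ Q) {a : K} (ha : a ∈ A) :
    gp π h ⟨a, ha⟩ = pq π a := (pq_of π (h ha)).symm

/-- **Restriction of a model to a divisor.** -/
theorem cut (hs : Function.Surjective π) (hQ : ∀ x : K, x ∈ Q ∨ x⁻¹ ∈ Q)
    (hinv : ∀ b : K, b ∈ Q → pq π b ≠ 0 → b⁻¹ ∈ Q) (f : K) (hfQ : f ∈ Q) (hf0 : f ≠ 0)
    (hfπ : pq π f = 0) (hun : ∀ q ∈ Q, pq π q = 0 → q / f ∈ Q)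
    {T I : Type} [Finite T] [Fintype I] (M : LM (⊥ : Subalgebra k K) ⊤ T I) (hMf : IsBr M f)
    (hdom : ∀ t, M.A t ≤ Q → ∀ q ∈ Q, ∃ a ∈ M.A t, ∃ b ∈ M.A t, pq π b ≠ 0 ∧ q * b = a) :
    ∃ (T' I' : Type) (_ : Finite T') (_ : Fintype I') (M' : LM (⊥ : Subalgebra k L) ⊤ T' I'),
      Frc M' ∧ ∀ g, g ∈ Q → pq π g ≠ 0 → IsBr M g → IsBr M' (pq π g) := by
  classical
  have hne : ∀ {b : K}, pq π b ≠ 0 → b ≠ 0 := by
    rintro b hb rfl
    exact hb (pq_zero π)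
  have hK : ∀ x : K, (∃ a b : Q, π b ≠ 0 ∧ x * b = a) ∨
      (∃ a b : Q, π b ≠ 0 ∧ x⁻¹ * b = a) := by
    intro x
    have key : ∀ x : K, x ∈ Q → ∃ a b : Q, π b ≠ 0 ∧ x * b = a := fun x hx =>
      ⟨⟨x, hx⟩, 1, by rw [map_one]; exact one_ne_zero, by simp⟩
    exact (hQ x).imp (key x) (key _)
  have hinv' : ∀ b : Q, π b ≠ 0 → (b : K)⁻¹ ∈ Q := fun b hb =>
    hinv b b.2 (by rw [pq_coe]; exact hb)
  -- units of `Q`
  have hunit : ∀ b : K, b ∈ Q → b ≠ 0 → b⁻¹ ∈ Q → pq π b ≠ 0 := fun b hb h0 hb' =>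
    pq_ne π h0 hb hb'
  let τ : {t : T // M.A t ≤ Q} → T := Subtype.val
  have hAQ : ∀ t, M.A (τ t) ≤ Q := fun t => t.2
  obtain ⟨N, hN, γ, hγ⟩ := hMf
  have hN0 : N ≠ 0 := by
    rintro rfl
    exact hN Nat.cast_zero
  -- Claim 1: some component contains the divisor
  have claim1 : ∀ t : {t : T // M.A t ≤ Q}, ∃ i, pq π (M.x (τ t) i) = 0 := by
    intro t
    by_contra hcon
    push Not at hcon
    obtain ⟨w, h0, h1, h2, h3⟩ := hγ (τ t)
    have h4 : (f ^ N)⁻¹ ∈ Q := by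
      rw [h3, mul_inv, ← Finset.prod_inv_distrib]
      refine Q.mul_mem (hAQ t h2) (Q.prod_mem fun i _ => ?_)
      rw [← zpow_neg]
      exact zpow_mem_of (hAQ t (M.xA _ i)) (Or.inr (hinv _ (hAQ t (M.xA _ i)) (hcon i)))
    have h5 := hunit (f ^ N) (Q.pow_mem hfQ N) (pow_ne_zero _ hf0) h4
    rw [pq_pow π hfQ, hfπ, zero_pow hN0] at h5
    exact h5 rfl
  -- Claim 2: it is unique
  have claim2 : ∀ (t : {t : T // M.A t ≤ Q}) (i j : I), pq π (M.x (τ t) i) = 0 →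
      pq π (M.x (τ t) j) = 0 → i = j := by
    intro t i j hi hj
    by_contra hij
    -- assume `x j / x i ∈ Q`
    have key : ∀ i j, i ≠ j → pq π (M.x (τ t) i) = 0 → pq π (M.x (τ t) j) = 0 →
        M.x (τ t) j / M.x (τ t) i ∈ Q → False := by
      intro i j hij hi hj h
      obtain ⟨a, ha, b, hb, hb0, hab⟩ := hdom (τ t) (hAQ t) _ h
      have e1 : M.x (τ t) j * b = a * M.x (τ t) i := by
        rw [← hab]
        have := M.x0 (τ t) i
        field_simp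
      obtain ⟨D, hD, hD'⟩ := M.snc (τ t) L (gp π (hAQ t)) j (M.xA _ j) (by
        rw [gp_apply]; exact hj)
      have e2 : (⟨M.x (τ t) j, M.xA _ j⟩ : M.A (τ t)) * ⟨b, hb⟩ =
          ⟨a, ha⟩ * ⟨M.x (τ t) i, M.xA _ i⟩ := Subtype.ext e1
      have e3 := congrArg D.D e2
      rw [D.leib, D.leib, hD, hD' i (M.xA _ i) hij (by rw [gp_apply]; exact hi), gp_apply,
        gp_apply, gp_apply, gp_apply, hi, hj, zero_mul, zero_mul, mul_zero, zero_add, mul_one,
        add_zero] at e3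
      exact hb0 e3
    rcases hQ (M.x (τ t) j / M.x (τ t) i) with h | h
    · exact key i j hij hi hj h
    · rw [inv_div] at h
      exact key j i (Ne.symm hij) hj hi h
  have hT' : Nonempty {t : T // M.A t ≤ Q} := by
    let V : ValuationSubring K :=
      { carrier := Q
        mul_mem' := fun ha hb => Q.mul_mem ha hb
        one_mem' := Q.one_mem
        add_mem' := fun ha hb => Q.add_mem ha hb
        zero_mem' := Q.zero_mem
        neg_mem' := fun ha => Q.neg_mem ha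
        mem_or_inv_mem' := hQ }
    obtain ⟨t, ht⟩ := M.cv V (by
      intro a ha
      obtain ⟨r, rfl⟩ := Algebra.mem_bot.1 ha
      exact Q.algebraMap_mem r)
    exact ⟨⟨t, ht⟩⟩
  obtain ⟨t0⟩ := hT'
  obtain ⟨i0, hi0⟩ := claim1 t0
  -- Claim 3: the component is the same on all charts
  have claim3 : ∀ t : {t : T // M.A t ≤ Q}, pq π (M.x (τ t) i0) = 0 := by
    intro t
    have hOV : OV M (τ t) (τ t0) ≤ Q := by
      refine adj_le (hAQ t) ?_
      rw [inv_div]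
      exact hAQ t0 (M.rt _ _)
    have h1 : M.x (τ t) i0 = M.x (τ t) i0 / M.x (τ t0) i0 * M.x (τ t0) i0 := by
      rw [div_mul_cancel₀ _ (M.x0 _ _)]
    rw [h1, pq_mul π (hOV (u_inv_mem_OV M (τ t) (τ t0) i0)) (hAQ t0 (M.xA _ _)), hi0, mul_zero]
  have hx0 : ∀ (t : {t : T // M.A t ≤ Q}) (i : I), i ≠ i0 → pq π (M.x (τ t) i) ≠ 0 :=
    fun t i hi h => hi (claim2 t i i0 h (claim3 t))
  -- Claim 4: the component is a uniformizer
  have claim4 : ∀ t : {t : T // M.A t ≤ Q}, ∀ q ∈ Q, pq π q = 0 → q / M.x (τ t) i0 ∈ Q := by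
    intro t q hq hq0
    have h1 : f / M.x (τ t) i0 ∈ Q := by
      by_contra hcon
      have h2 : M.x (τ t) i0 / f ∈ Q := hun _ (hAQ t (M.xA _ _)) (claim3 t)
      have h3 : pq π (M.x (τ t) i0 / f) = 0 := by
        by_contra h4
        have h5 := hinv _ h2 h4
        rw [inv_div] at h5
        exact hcon h5
      have h4 := hun _ h2 h3
      obtain ⟨a, ha, b, hb, hb0, hab⟩ := hdom (τ t) (hAQ t) _ hfQ
      obtain ⟨c, hc, d, hd, hd0, hcd⟩ := hdom (τ t) (hAQ t) _ h4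
      have ha0 : pq π a = 0 := by rw [← hab, pq_mul π hfQ (hAQ t hb), hfπ, zero_mul]
      have e1 : M.x (τ t) i0 * (b * b * d) = a * a * c := by
        rw [← hab, ← hcd]
        field_simp
      obtain ⟨D, hD, hD'⟩ := M.snc (τ t) L (gp π (hAQ t)) i0 (M.xA _ i0) (by
        rw [gp_apply]; exact claim3 t)
      have hbbd : b * b * d ∈ M.A (τ t) :=
        (M.A _).mul_mem ((M.A _).mul_mem hb hb) hd
      have e2 : (⟨M.x (τ t) i0, M.xA _ i0⟩ : M.A (τ t)) * ⟨b * b * d, hbbd⟩ =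
          ⟨a, ha⟩ * ⟨a, ha⟩ * ⟨c, hc⟩ := Subtype.ext e1
      have e3 := congrArg D.D e2
      have e4 : gp π (hAQ t) (⟨a, ha⟩ * ⟨a, ha⟩) = 0 := by
        rw [map_mul, gp_apply, ha0, zero_mul]
      rw [D.leib, D.leib, D.leib, hD, e4, gp_apply, gp_apply, gp_apply, gp_apply,
        claim3 t, ha0] at e3
      have e5 : pq π (b * b * d) = 0 := by
        linear_combination e3
      rw [pq_mul π (hAQ t ((M.A _).mul_mem hb hb)) (hAQ t hd), pq_mul π (hAQ t hb) (hAQ t hb)]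
        at e5
      exact mul_ne_zero (mul_ne_zero hb0 hb0) hd0 e5
    have h2 : q / M.x (τ t) i0 = q / f * (f / M.x (τ t) i0) := by
      have := M.x0 (τ t) i0
      field_simp
    rw [h2]
    exact Q.mul_mem (hun q hq hq0) h1
  let y : {t : T // M.A t ≤ Q} → K := fun t => M.x (τ t) i0
  have hy : ∀ t, y t ∈ M.A (τ t) := fun t => M.xA _ _
  have hy0 : ∀ t, y t ≠ 0 := fun t => M.x0 _ _
  have hv0 : ∀ t (κ : Type u) [Field κ] [Algebra k κ] (φ : M.A (τ t) →ₐ[k] κ),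
      φ ⟨y t, hy t⟩ = 0 → ∃ D : TV φ, D.D ⟨y t, hy t⟩ ≠ 0 := by
    intro t κ _ _ φ hφ
    obtain ⟨D, hD, -⟩ := M.snc (τ t) κ φ i0 (hy t) hφ
    exact ⟨D, by
      have : D.D ⟨y t, hy t⟩ = 1 := hD
      rw [this]; exact one_ne_zero⟩
  have hmin : ∀ t, RingHom.ker (qm π (M.A (τ t)) (hAQ t)) ∈
      (Ideal.span {(⟨y t, hy t⟩ : M.A (τ t))}).minimalPrimes := by
    intro t
    refine ⟨⟨RingHom.ker_isPrime _, ?_⟩, ?_⟩
    · rw [Ideal.span_singleton_le_iff_mem, RingHom.mem_ker, qm_apply π (hAQ t) (hy t)]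
      exact Subtype.ext (claim3 t)
    · rintro P'' ⟨hp'', hle''⟩ hPle ⟨a, ha⟩ haker
      have ha0 : pq π a = 0 := by
        rw [RingHom.mem_ker, qm_apply π (hAQ t) ha] at haker
        exact congrArg Subtype.val haker
      obtain ⟨c, hc, d, hd, hd0, hcd⟩ := hdom (τ t) (hAQ t) _ (claim4 t a (hAQ t ha) ha0)
      have e1 : (⟨a, ha⟩ : M.A (τ t)) * ⟨d, hd⟩ = ⟨y t, hy t⟩ * ⟨c, hc⟩ := by
        apply Subtype.ext
        change a * d = M.x (τ t) i0 * c
        rw [← hcd]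
        have := M.x0 (τ t) i0
        field_simp
      have e2 : (⟨a, ha⟩ : M.A (τ t)) * ⟨d, hd⟩ ∈ P'' := by
        rw [e1]
        exact P''.mul_mem_right _ (hle'' (Ideal.mem_span_singleton_self _))
      rcases hp''.mem_or_mem e2 with h | h
      · exact h
      · exfalso
        have h5 := hPle h
        rw [RingHom.mem_ker, qm_apply π (hAQ t) hd] at h5
        exact hd0 (congrArg Subtype.val h5)
  have hker : ∀ t, LK π (M.A (τ t)) (y t) := by
    intro t m' hm' hPm'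
    have hsm := M.sm (τ t)
    have hsq : Algebra.Smooth k (M.A (τ t) ⧸ Ideal.span {(⟨y t, hy t⟩ : M.A (τ t))}) :=
      smooth_quot _ (hv0 t)
    obtain ⟨e, he, h1⟩ := local_ker loc_main (k := k) (⟨y t, hy t⟩ : M.A (τ t))
      (RingHom.ker (qm π (M.A (τ t)) (hAQ t))) m' (hmin t) hm' (by
        rintro ⟨a, ha⟩ haker
        rw [RingHom.mem_ker, qm_apply π (hAQ t) ha] at haker
        exact hPm' a ha (congrArg Subtype.val haker))
    refine ⟨e, he, fun a ha h0 => ?_⟩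
    obtain ⟨b', hb'⟩ := h1 ⟨a, ha⟩ (by
      rw [RingHom.mem_ker, qm_apply π (hAQ t) ha]
      exact Subtype.ext h0)
    have h2 : (e : K) * a = y t * b' := congrArg Subtype.val hb'
    rw [h2, mul_div_cancel_left₀ _ (hy0 t)]
    exact b'.2
  have hsm' : ∀ t, Algebra.Smooth k (im π (M.A (τ t)) (hAQ t)) := by
    intro t
    have := M.sm (τ t)
    exact smooth_im2 π loc_main (hAQ t) (hy t) (claim3 t) (hmin t) (hv0 t)
  have hS : ∀ t, SNC (M.A (τ t)) (fun o : Option {i : I // i ≠ i0} =>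
      o.elim (y t) (fun i => M.x (τ t) i.1)) := by
    intro t κ _ _ φ o ho hφ
    let ξ : Option {i : I // i ≠ i0} → I := fun o => o.elim i0 Subtype.val
    have hξ : Function.Injective ξ := by
      rintro (_ | i) (_ | j) h
      · rfl
      · exact absurd h.symm j.2
      · exact absurd h i.2
      · exact congrArg some (Subtype.ext h)
    have hξx : ∀ o : Option {i : I // i ≠ i0},
        (o.elim (y t) (fun i => M.x (τ t) i.1) : K) = M.x (τ t) (ξ o) := by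
      rintro (_ | i)
      · rfl
      · rfl
    have e : ∀ (o : Option {i : I // i ≠ i0})
        (ho : (o.elim (y t) (fun i => M.x (τ t) i.1) : K) ∈ M.A (τ t)),
        (⟨_, ho⟩ : M.A (τ t)) = ⟨M.x (τ t) (ξ o), M.xA _ _⟩ := fun o ho => Subtype.ext (hξx o)
    rw [e] at hφ
    obtain ⟨D, hD, hD'⟩ := M.snc (τ t) κ φ (ξ o) (M.xA _ _) hφ
    refine ⟨D, by rw [e]; exact hD, ?_⟩
    intro j hj hne' hφj
    rw [e] at hφj ⊢
    exact hD' (ξ j) (M.xA _ _) (fun h => hne' (hξ h)) hφj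
  obtain ⟨M', hA', hx'⟩ := exists_model3 π hK hinv' M τ (fun i : {i : I // i ≠ i0} => i.1)
    (fun t ht => ⟨⟨t, ht⟩, rfl⟩) t0 hAQ
    (fun t i => hinv _ (hAQ t (M.xA _ _)) (hx0 t i.1 i.2)) y hy hy0 claim3 hker hsm' hS
  refine ⟨{t : T // M.A t ≤ Q}, {i : I // i ≠ i0}, inferInstance, inferInstance, M', ?_, ?_⟩
  · intro t z
    obtain ⟨⟨q, hq⟩, rfl⟩ := hs z
    obtain ⟨a, ha, b, hb, hb0, hab⟩ := hdom (τ t) (hAQ t) q hq
    rw [hA']
    refine ⟨pq π a, pq_mem π (hAQ t) ha, pq π b, pq_mem π (hAQ t) hb, hb0, ?_⟩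
    rw [← hab, pq_mul π hq (hAQ t hb), mul_assoc, mul_inv_cancel₀ hb0, mul_one, pq_of π hq]
  · intro g hg hg0 hMg
    obtain ⟨n, hn, δ, hδ⟩ := hMg
    refine ⟨n, hn, fun i => δ i.1, ?_⟩
    intro t
    obtain ⟨w, h0, h1, h2, h3⟩ := hδ (τ t)
    rw [hA', hx']
    -- the exponent of the component vanishes
    have hwπ : pq π w ≠ 0 := pq_ne π h0 (hAQ t h1) (hAQ t h2)
    have hmem : ∀ i : I, i ≠ i0 → M.x (τ t) i ^ δ i ∈ Q := fun i hi =>
      zpow_mem_of (hAQ t (M.xA _ _)) (Or.inr (hinv _ (hAQ t (M.xA _ _)) (hx0 t i hi)))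
    have hmem' : ∀ i : I, i ≠ i0 → (M.x (τ t) i ^ δ i)⁻¹ ∈ Q := fun i hi => by
      rw [← zpow_neg]
      exact zpow_mem_of (hAQ t (M.xA _ _)) (Or.inr (hinv _ (hAQ t (M.xA _ _)) (hx0 t i hi)))
    have hP : ∏ i ∈ Finset.univ.erase i0, M.x (τ t) i ^ δ i ∈ Q :=
      Q.prod_mem fun i hi => hmem i (Finset.ne_of_mem_erase hi)
    have hP' : (∏ i ∈ Finset.univ.erase i0, M.x (τ t) i ^ δ i)⁻¹ ∈ Q := by
      rw [← Finset.prod_inv_distrib]
      exact Q.prod_mem fun i hi => hmem' i (Finset.ne_of_mem_erase hi)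
    have hP0 : ∏ i ∈ Finset.univ.erase i0, M.x (τ t) i ^ δ i ≠ 0 :=
      Finset.prod_ne_zero_iff.2 fun i _ => zpow_ne_zero _ (M.x0 _ _)
    have h3' : g ^ n = w * (M.x (τ t) i0 ^ δ i0 *
        ∏ i ∈ Finset.univ.erase i0, M.x (τ t) i ^ δ i) := by
      rw [h3, Finset.mul_prod_erase Finset.univ (fun i => M.x (τ t) i ^ δ i)
        (Finset.mem_univ i0)]
    have hg0' : g ≠ 0 := hne hg0
    have hginv : g⁻¹ ∈ Q := hinv g hg hg0
    have hxe : M.x (τ t) i0 ^ δ i0 = g ^ n * w⁻¹ *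
        (∏ i ∈ Finset.univ.erase i0, M.x (τ t) i ^ δ i)⁻¹ := by
      rw [h3']
      field_simp
    have hxe1 : M.x (τ t) i0 ^ δ i0 ∈ Q := by
      rw [hxe]
      exact Q.mul_mem (Q.mul_mem (Q.pow_mem hg n) (hAQ t h2)) hP'
    have hxe2 : (M.x (τ t) i0 ^ δ i0)⁻¹ ∈ Q := by
      rw [hxe, mul_inv, mul_inv, inv_inv, inv_inv, ← inv_pow]
      exact Q.mul_mem (Q.mul_mem (Q.pow_mem hginv n) (hAQ t h1)) hP
    have hxQ := hAQ t (M.xA (τ t) i0)
    have hδ0 : δ i0 = 0 := by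
      by_contra hne0
      rcases lt_or_gt_of_ne hne0 with h | h
      · obtain ⟨m, hm⟩ := Int.eq_ofNat_of_zero_le (show 0 ≤ -δ i0 by omega)
        have hm0 : m ≠ 0 := by omega
        have e1 : δ i0 = -(m : ℤ) := by omega
        rw [e1, zpow_neg, zpow_natCast, inv_inv] at hxe2
        rw [e1, zpow_neg, zpow_natCast] at hxe1
        have h4 := hunit _ hxe2 (pow_ne_zero _ (M.x0 _ _)) hxe1
        rw [pq_pow π hxQ, claim3 t, zero_pow hm0] at h4
        exact h4 rfl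
      · obtain ⟨m, hm⟩ := Int.eq_ofNat_of_zero_le h.le
        have hm0 : m ≠ 0 := by omega
        rw [hm, zpow_natCast] at hxe1 hxe2
        have h4 := hunit _ hxe1 (pow_ne_zero _ (M.x0 _ _)) hxe2
        rw [pq_pow π hxQ, claim3 t, zero_pow hm0] at h4
        exact h4 rfl
    rw [hδ0, zpow_zero, one_mul] at h3'
    refine ⟨pq π w, hwπ, pq_mem π (hAQ t) h1, ?_, ?_⟩
    · rw [← pq_inv π h0 (hAQ t h1) (hAQ t h2)]
      exact pq_mem π (hAQ t) h2
    · rw [← pq_pow π hg, h3', pq_mul π (hAQ t h1) hP,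
        pq_prod π _ _ fun i hi => hmem i (Finset.ne_of_mem_erase hi)]
      congr 1
      have e1 : ∀ i ∈ Finset.univ.erase i0, pq π (M.x (τ t) i ^ δ i) =
          pq π (M.x (τ t) i) ^ δ i := fun i hi =>
        pq_zpow π (M.x0 _ _) (hAQ t (M.xA _ _))
          (hinv _ (hAQ t (M.xA _ _)) (hx0 t i (Finset.ne_of_mem_erase hi))) _
      rw [Finset.prod_congr rfl e1]
      refine (Finset.prod_subtype (Finset.univ.erase i0) (by
        intro i
        simp) (fun i => pq π (M.x (τ t) i) ^ δ i))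

end cut

end Pool.Agent.N98
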