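import Pool.Agent.N98.DegM
import Pool.Agent.W558.WD.Plane
import Pool.Agent.W418.LCI.Field

/-!
Models of varieties of bounded degree: the absolute version.
-/

set_option autoImplicit false
set_option linter.unusedVariables false
set_option linter.unusedSectionVars false

universe u

namespace Pool.Agent.N98

open MvPolynomial Pool.Agent.W558 Pool.Agent.W418.LCI

section ind

open scoped IntermediateField.algebraAdjoinAdjoin in
lemma ind_field {k K ι σ : Type*} [Field k] [Field K] [Algebra k K] (u : ι → K) (w : σ → K)
    (h : AlgebraicIndependent k (Sum.elim w u)) :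
    AlgebraicIndependent (IntermediateField.adjoin k (Set.range u)) w := by
  have hw := (AlgebraicIndependent.sumElim_iff.1 h).2
  let R := Algebra.adjoin k (Set.range u)
  let E := IntermediateField.adjoin k (Set.range u)
  rw [algebraicIndependent_iff] at hw ⊢
  intro g hg
  obtain ⟨b, g0, hb, hg0⟩ := exists_clear (R := R) (L := E) g
  have h1 : aeval w (map (algebraMap R E) g0) = aeval w g0 := by
    rw [aeval_def, aeval_def, eval₂_map]
    rfl
  have h2 : g0 = 0 := by
    apply hw
    rw [← h1, hg0, map_mul, hg, mul_zero]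
  rw [h2, map_zero] at hg0
  have hb' : (C (algebraMap R E b) : MvPolynomial σ E) ≠ 0 := by
    rw [Ne, C_eq_zero]
    intro h
    exact hb (IsFractionRing.injective R E (h.trans (map_zero _).symm))
  exact (mul_eq_zero.1 hg0.symm).resolve_left hb'

end ind

section plane

variable {k K : Type u} [Field k] [PerfectField k] [Field K] [Algebra k K]

lemma plane_field (u : Fin 2 → K) (hu : AlgebraicIndependent k u) :
    HasLM k (IntermediateField.adjoin k (Set.range u)) ∧
      Infinite (IntermediateField.adjoin k (Set.range u)) := by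
  let E := IntermediateField.adjoin k (Set.range u)
  let u' : Fin 2 → E := fun j => ⟨u j, IntermediateField.subset_adjoin k _ ⟨j, rfl⟩⟩
  have hu' : AlgebraicIndependent k u' := by
    have h1 : AlgebraicIndependent k (E.val ∘ u') := hu
    exact h1.of_comp E.val
  have htop : IntermediateField.adjoin k (Set.range u') = ⊤ := by
    apply IntermediateField.map_injective E.val
    rw [IntermediateField.adjoin_map, ← Set.range_comp, ← AlgHom.fieldRange_eq_map,
      IntermediateField.fieldRange_val]
    rfl
  have htr : Algebra.trdeg k E = 2 := by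
    have h1 : Algebra.trdeg k (RF k (Fin 2)) = Algebra.trdeg k E := hu.aevalEquivField.trdeg_eq
    rw [← h1]
    exact trdeg_RF2 k
  constructor
  · refine hasLM_of_surface k E htr (hasModel_plane htr (u := u') (fun j h => ?_) htop)
    exact hu'.ne_zero j h
  · exact Infinite.of_injective (aeval u' : MvPolynomial (Fin 2) k →ₐ[k] E) hu'

end plane

section abs

variable {k K : Type u} [Field k] [Field K] [Algebra k K] {N : ℕ} (x : Fin N → K)

lemma one_le_of_growth (d δ C0 : ℕ)
    (hδ : ∀ t : ℕ, d.factorial * Module.finrank k (img k x t) ≤ δ * (t + C0) ^ d) : 1 ≤ δ := by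
  have h0 := hδ 0
  have hfin : FiniteDimensional k (img k x 0) := by
    unfold img
    infer_instance
  have h1 : 0 < Module.finrank k (img k x 0) := by
    rw [Module.finrank_pos_iff]
    exact ⟨⟨⟨1, one_mem_img x 0⟩, 0, fun h => one_ne_zero (congrArg Subtype.val h)⟩⟩
  by_contra hlt
  have h2 : δ = 0 := by omega
  rw [h2, zero_mul] at h0
  have h3 : 0 < d.factorial * Module.finrank k (img k x 0) :=
    Nat.mul_pos (Nat.factorial_pos d) h1
  omega

/-- A transcendence basis among the coordinates. -/
lemma exists_basis (htop : IntermediateField.adjoin k (Set.range x) = ⊤) (d : ℕ)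
    (htr : Algebra.trdeg k K = d) {σ : Type} [Fintype σ] (hσ : Fintype.card σ = d) :
    ∃ v : σ → K, AlgebraicIndependent k v ∧ ∀ i, ∃ j, v i = x j := by
  classical
  have halg : Algebra.IsAlgebraic (Algebra.adjoin k (Set.range x)) K := by
    refine ⟨fun z => ?_⟩
    obtain ⟨a, ha, b, hb, hb0, rfl⟩ := frac_of_top htop z
    refine ⟨Polynomial.C ⟨b, hb⟩ * Polynomial.X - Polynomial.C ⟨a, ha⟩, ?_, ?_⟩
    · intro h0
      have h1 := congrArg (fun P => Polynomial.coeff P 1) h0
      simp only [Polynomial.coeff_sub, Polynomial.coeff_C_mul, Polynomial.coeff_X_one, mul_one,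
        Polynomial.coeff_zero] at h1
      rw [Polynomial.coeff_C, if_neg one_ne_zero, sub_zero] at h1
      exact hb0 (congrArg Subtype.val h1)
    · rw [map_sub, map_mul, Polynomial.aeval_C, Polynomial.aeval_X, Polynomial.aeval_C]
      change b * (a * b⁻¹) - a = 0
      field_simp
      ring
  obtain ⟨s, hs, hb⟩ := exists_isTranscendenceBasis_subset (R := k) (Set.range x)
  have hsf : s.Finite := (Set.finite_range x).subset hs
  have := hsf.fintype
  have hc := hb.cardinalMk_eq_trdeg
  rw [htr, Cardinal.mk_fintype, Nat.cast_inj] at hc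
  let e : σ ≃ s := Fintype.equivOfCardEq (hσ.trans hc.symm)
  refine ⟨fun i => (e i : K), hb.1.comp e e.injective, fun i => ?_⟩
  obtain ⟨j, hj⟩ := hs (e i).2
  exact ⟨j, hj.symm⟩

/-- **Models of varieties of bounded degree**, the absolute version. -/
theorem abs_models [PerfectField k] (htop : IntermediateField.adjoin k (Set.range x) = ⊤) (d : ℕ)
    (hd : 2 ≤ d) (htr : Algebra.trdeg k K = d) (δ C0 : ℕ)
    (hδ : ∀ t : ℕ, d.factorial * Module.finrank k (img k x t) ≤ δ * (t + C0) ^ d)
    (hchar : ((Nat.factorial (δ ^ 2 ^ (d - 2)) : ℕ) : k) ≠ 0)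
    (B : Type) [Finite B] (a0 : B → k) (a : B → Fin N → k)
    (hb : ∀ b, algebraMap k K (a0 b) + ∑ j, algebraMap k K (a b j) * x j ≠ 0) :
    ∃ (T I : Type) (_ : Finite T) (_ : Fintype I) (M : LM (⊥ : Subalgebra k K) ⊤ T I),
      Frc M ∧ ∀ b, IsBr M (algebraMap k K (a0 b) + ∑ j, algebraMap k K (a b j) * x j) := by
  classical
  have hδ1 := one_le_of_growth x d δ C0 hδ
  have hcard : Fintype.card (Fin (d - 2) ⊕ Fin 2) = d := by
    rw [Fintype.card_sum, Fintype.card_fin, Fintype.card_fin]
    omega
  obtain ⟨v, hv, hvx⟩ := exists_basis x htop d htr hcard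
  let u : Fin 2 → K := fun i => v (Sum.inr i)
  let w : Fin (d - 2) → K := fun i => v (Sum.inl i)
  have hvuw : v = Sum.elim w u := by
    funext i
    rcases i with i | i <;> rfl
  let E := IntermediateField.adjoin k (Set.range u)
  obtain ⟨hE, hinf⟩ := plane_field u (hv.comp _ Sum.inr_injective)
  have hw : AlgebraicIndependent E w := by
    rw [hvuw] at hv
    exact ind_field u w hv
  let z : Fin (d - 2) ⊕ Fin 2 → MvPolynomial (Fin (d - 2)) E :=
    Sum.elim X fun i => C ⟨u i, IntermediateField.subset_adjoin k _ ⟨i, rfl⟩⟩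
  have htopE : IntermediateField.adjoin E (Set.range x) = ⊤ := by
    rw [eq_top_iff]
    intro y _
    have h1 : y ∈ IntermediateField.adjoin k (Set.range x) := by rw [htop]; trivial
    have h2 : IntermediateField.adjoin k (Set.range x) ≤
        (IntermediateField.adjoin E (Set.range x)).restrictScalars k := by
      rw [IntermediateField.adjoin_le_iff]
      intro y hy
      exact IntermediateField.subset_adjoin E _ hy
    exact h2 h1
  have hmap : ∀ b, algebraMap E K (algebraMap k E (a0 b)) +
      ∑ j, algebraMap E K (algebraMap k E (a b j)) * x j =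
      algebraMap k K (a0 b) + ∑ j, algebraMap k K (a b j) * x j := fun b => rfl
  obtain ⟨T, I, hT, hI, M, hFr, hM⟩ := deg_models (k := k) (k0 := k) (E := E) x v w z hE htopE hv
    (fun i => by
      obtain ⟨j, hj⟩ := hvx i
      rw [hj]
      exact x_mem_img x j) hw
    (by
      rintro (i | i)
      · exact aeval_X _ _
      · exact aeval_C _ _)
    (by
      rintro (i | i)
      · exact (totalDegree_X (R := E) i).le
      · exact (totalDegree_C _).trans_le (Nat.zero_le _)) δ C0 hδ1
    (by rw [hcard]; exact hδ) hchar B (fun b => algebraMap k E (a0 b))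
    (fun b j => algebraMap k E (a b j)) (fun b => by rw [hmap]; exact hb b)
  exact ⟨T, I, hT, hI, M, hFr, fun b => by rw [← hmap]; exact hM b⟩

end abs

end Pool.Agent.N98
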