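import Pool.Agent.N98.Gen

/-!
Specialization of the generic projection: the coordinates are rational functions of small degree of
the coordinates of a general projection to a hypersurface.
-/

set_option autoImplicit false
set_option linter.unusedVariables false
set_option linter.unusedSectionVars false

universe u

namespace Pool.Agent.N98

open MvPolynomial

section fin

variable {E K : Type*} [Field E] [Field K] [Algebra E K]

/-- The kernel is principal, for variables indexed by `Fin (r + 1)`. -/
theorem exists_gen_fin {r : ℕ} (y : Fin (r + 1) → K)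
    (hy : AlgebraicIndependent E fun i : Fin r => y i.succ) (g0 : MvPolynomial (Fin (r + 1)) E)
    (hg0 : g0 ≠ 0) (hg : MvPolynomial.aeval y g0 = 0) :
    ∃ F : MvPolynomial (Fin (r + 1)) E, Irreducible F ∧
      ∀ g, MvPolynomial.aeval y g = 0 ↔ F ∣ g := by
  let e : Fin (r + 1) ≃ Option (Fin r) := _root_.finSuccEquiv r
  let ε : MvPolynomial (Fin (r + 1)) E ≃ₐ[E] MvPolynomial (Option (Fin r)) E :=
    renameEquiv E e
  have hev : ∀ g, aeval (fun o => y (e.symm o)) (ε g) = aeval y g := by
    intro g
    change aeval (fun o => y (e.symm o)) (rename e g) = _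
    rw [aeval_rename]
    congr 1
    congr 1
    funext i
    exact congrArg y (e.symm_apply_apply i)
  obtain ⟨F, hF, hF'⟩ := exists_gen_option (E := E) (fun o => y (e.symm o)) (by
      have h1 : (fun i : Fin r => y (e.symm (some i))) = fun i => y i.succ := by
        funext i
        rw [finSuccEquiv_symm_some]
      rw [h1]
      exact hy) (ε g0) (fun h => hg0 (ε.injective (h.trans (map_zero ε).symm)))
      (by rw [hev, hg])
  refine ⟨ε.symm F, (MulEquiv.irreducible_iff ε.symm).2 hF, fun g => ?_⟩
  rw [← hev, hF']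
  constructor
  · intro h
    have := map_dvd ε.symm h
    rwa [ε.symm_apply_apply] at this
  · intro h
    have := map_dvd ε h
    rwa [ε.apply_symm_apply] at this

end fin

section dc

variable {k0 : Type*} [CommRing k0] {N : ℕ} {τ : Type*}

/-- The coefficientwise derivative. -/
noncomputable def dc (j : Fin N) (Φ : MvPolynomial τ (MvPolynomial (Fin N) k0)) :
    MvPolynomial τ (MvPolynomial (Fin N) k0) :=
  ∑ m ∈ Φ.support, monomial m (pderiv j (coeff m Φ))

lemma coeff_dc (j : Fin N) (Φ : MvPolynomial τ (MvPolynomial (Fin N) k0)) (m : τ →₀ ℕ) :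
    coeff m (dc j Φ) = pderiv j (coeff m Φ) := by
  classical
  unfold dc
  rw [coeff_sum]
  simp only [coeff_monomial]
  rw [Finset.sum_ite_eq' Φ.support m fun m => pderiv j (coeff m Φ)]
  split_ifs with h
  · rfl
  · rw [notMem_support_iff.1 h, map_zero]

lemma dc_add (j : Fin N) (Φ Ψ : MvPolynomial τ (MvPolynomial (Fin N) k0)) :
    dc j (Φ + Ψ) = dc j Φ + dc j Ψ := by
  ext1 m
  rw [coeff_dc, coeff_add, coeff_add, coeff_dc, coeff_dc, map_add]

lemma dc_C (j : Fin N) (a : MvPolynomial (Fin N) k0) :
    dc j (C a : MvPolynomial τ (MvPolynomial (Fin N) k0)) = C (pderiv j a) := by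
  classical
  ext1 m
  rw [coeff_dc, coeff_C, coeff_C]
  split_ifs
  · rfl
  · exact map_zero _

lemma dc_mul_X (j : Fin N) (Φ : MvPolynomial τ (MvPolynomial (Fin N) k0)) (o : τ) :
    dc j (Φ * X o) = dc j Φ * X o := by
  classical
  ext1 m
  rw [coeff_dc, coeff_mul_X', coeff_mul_X']
  split_ifs
  · rw [coeff_dc]
  · exact map_zero _

lemma totalDegree_dc_le (j : Fin N) (Φ : MvPolynomial τ (MvPolynomial (Fin N) k0)) :
    (dc j Φ).totalDegree ≤ Φ.totalDegree := by
  classical
  unfold totalDegree
  refine Finset.sup_mono fun m hm => ?_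
  rw [mem_support_iff] at hm ⊢
  intro h
  exact hm (by rw [coeff_dc, h, map_zero])

end dc

section chain

variable {k0 K : Type u} [Field k0] [Field K] [Algebra k0 K] {N : ℕ} (x : Fin N → K) {σ : Type}
  (v : σ → K)

lemma pderiv_gev (j : Fin N) (Φ : MvPolynomial (Option σ) (MvPolynomial (Fin N) k0)) :
    pderiv j (gev x v Φ) = gev x v (dc j Φ) + gev x v (pderiv none Φ) * C (x j) := by
  classical
  induction Φ using MvPolynomial.induction_on with
  | C a =>
    rw [dc_C, pderiv_C, map_zero, zero_mul, add_zero]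
    unfold gev
    rw [coe_eval₂Hom, eval₂_C, eval₂_C, pderiv_map]
  | add p q hp hq =>
    rw [map_add, map_add, dc_add, map_add, map_add, map_add, hp, hq]
    ring
  | mul_X p o hp =>
    rw [dc_mul_X, map_mul (gev x v) p (X o), pderiv_mul, pderiv_mul, map_add (gev x v),
      map_mul (gev x v), map_mul (gev x v), map_mul (gev x v), hp]
    have hX : gev (k0 := k0) x v (X o) = gy x v o := by
      unfold gev
      rw [coe_eval₂Hom, eval₂_X]
    rw [hX]
    rcases o with _ | i
    · have h1 : pderiv j (gy x v none) = C (x j) := by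
        change pderiv j (∑ j, X j * C (x j)) = _
        rw [map_sum, Finset.sum_eq_single j]
        · rw [pderiv_mul, pderiv_X_self, pderiv_C]
          ring
        · intro b _ hb
          rw [pderiv_mul, pderiv_X_of_ne hb, pderiv_C]
          ring
        · intro h
          exact absurd (Finset.mem_univ j) h
      rw [h1, pderiv_X_self, map_one]
      ring
    · have h1 : pderiv j (gy x v (some i)) = 0 := pderiv_C
      rw [h1, pderiv_X_of_ne (Option.some_ne_none i), map_zero]
      ring

end chain

section sp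

variable {k0 E K : Type u} [Field k0] [Field E] [Field K] [Algebra k0 K] [Algebra k0 E]
  [Algebra E K] [IsScalarTower k0 E K] {N r : ℕ} (x : Fin N → K) {σ : Type} (v : σ → K)
  (w : Fin r → K) (z : σ → MvPolynomial (Fin r) E) (c : Fin N → E)

/-- Specialization of the coefficients and of the variables. -/
noncomputable def sp : MvPolynomial (Option σ) (MvPolynomial (Fin N) k0) →+*
    MvPolynomial (Fin (r + 1)) E :=
  eval₂Hom (C.comp (eval₂Hom (algebraMap k0 E) c))
    fun o => o.elim (X 0) fun i => rename Fin.succ (z i)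

/-- The coordinates of the special projection. -/
noncomputable def sy : Fin (r + 1) → K :=
  Fin.cons (∑ j, algebraMap E K (c j) * x j) w

lemma aeval_sp (hz : ∀ i, aeval w (z i) = v i)
    (Φ : MvPolynomial (Option σ) (MvPolynomial (Fin N) k0)) :
    aeval (sy x w c) (sp z c Φ) = eval (fun j => algebraMap E K (c j)) (gev x v Φ) := by
  have h1 : ((aeval (sy x w c) : MvPolynomial (Fin (r + 1)) E →ₐ[E] K) :
      MvPolynomial (Fin (r + 1)) E →+* K).comp (sp (k0 := k0) z c) =
      (eval (fun j => algebraMap E K (c j))).comp (gev x v) := by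
    apply MvPolynomial.ringHom_ext
    · intro a
      simp only [RingHom.comp_apply, sp, gev, coe_eval₂Hom, eval₂_C, RingHom.coe_coe, aeval_C]
      rw [eval_map, hom_eval₂]
      congr 1
      exact (IsScalarTower.algebraMap_eq k0 E K).symm
    · intro o
      simp only [RingHom.comp_apply, sp, gev, coe_eval₂Hom, eval₂_X, RingHom.coe_coe]
      rcases o with _ | i
      · change aeval (sy x w c) (X 0) = eval _ (∑ j, X j * C (x j))
        rw [aeval_X, map_sum]
        simp only [map_mul, eval_X, eval_C]
        rfl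
      · change aeval (sy x w c) (rename Fin.succ (z i)) = eval _ (C (v i))
        rw [aeval_rename, eval_C, ← hz i]
        rfl
  exact RingHom.congr_fun h1 Φ

lemma totalDegree_sp_le (hzd : ∀ i, (z i).totalDegree ≤ 1)
    (Φ : MvPolynomial (Option σ) (MvPolynomial (Fin N) k0)) :
    (sp z c Φ).totalDegree ≤ Φ.totalDegree := by
  classical
  unfold sp
  rw [coe_eval₂Hom, eval₂_eq]
  refine totalDegree_finsetSum_le fun m hm => ?_
  refine (totalDegree_mul _ _).trans ?_
  rw [RingHom.comp_apply, totalDegree_C, zero_add]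
  refine (totalDegree_finsetProd _ _).trans ?_
  refine le_trans ?_ (le_totalDegree hm)
  refine Finset.sum_le_sum fun o _ => ?_
  refine (totalDegree_pow _ _).trans ?_
  refine le_trans (Nat.mul_le_mul_left _ ?_) (le_of_eq (mul_one _))
  rcases o with _ | i
  · exact (totalDegree_X (R := E) (0 : Fin (r + 1))).le
  · exact (totalDegree_rename_le _ _).trans (hzd i)

lemma pderiv_sp (Φ : MvPolynomial (Option σ) (MvPolynomial (Fin N) k0)) :
    pderiv 0 (sp z c Φ) = sp z c (pderiv none Φ) := by
  classical
  have hX : ∀ o, sp (k0 := k0) z c (X o) = o.elim (X 0) fun i => rename Fin.succ (z i) := by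
    intro o
    unfold sp
    rw [coe_eval₂Hom, eval₂_X]
  induction Φ using MvPolynomial.induction_on with
  | C a =>
    rw [pderiv_C, map_zero]
    unfold sp
    rw [coe_eval₂Hom, eval₂_C, RingHom.comp_apply, pderiv_C]
  | add p q hp hq => rw [map_add, map_add, map_add, map_add, hp, hq]
  | mul_X p o hp =>
    rw [map_mul, pderiv_mul, pderiv_mul, map_add, map_mul, map_mul, hp, hX]
    congr 1
    rcases o with _ | i
    · change _ * pderiv 0 (X 0) = _ * sp z c (pderiv none (X none))
      rw [pderiv_X_self, pderiv_X_self, map_one]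
    · change _ * pderiv 0 (rename Fin.succ (z i)) = _ * sp z c (pderiv none (X (some i)))
      rw [pderiv_X_of_ne (Option.some_ne_none i), map_zero]
      congr 1
      apply pderiv_eq_zero_of_notMem_vars
      intro h
      have h1 := vars_rename Fin.succ (z i) h
      rw [Finset.mem_image] at h1
      obtain ⟨a, -, ha⟩ := h1
      exact Fin.succ_ne_zero a ha

end sp

section main

variable {k0 E K : Type u} [Field k0] [Field E] [Field K] [Algebra k0 K] [Algebra k0 E]
  [Algebra E K] [IsScalarTower k0 E K] {N r : ℕ} (x : Fin N → K) {σ : Type} [Fintype σ]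
  (v : σ → K) (w : Fin r → K) (z : σ → MvPolynomial (Fin r) E)

/-- **General projections.** -/
theorem spz [Infinite E] (hv : AlgebraicIndependent k0 v) (hvx : ∀ i, v i ∈ img k0 x 1)
    (hw : AlgebraicIndependent E w) (hz : ∀ i, aeval w (z i) = v i)
    (hzd : ∀ i, (z i).totalDegree ≤ 1) (δ C0 : ℕ)
    (hδ : ∀ t : ℕ, (Fintype.card σ).factorial * Module.finrank k0 (img k0 x t) ≤
      δ * (t + C0) ^ Fintype.card σ) (hchar : ((Nat.factorial δ : ℕ) : k0) ≠ 0) :
    ∃ (y : Fin (r + 1) → K) (F W : MvPolynomial (Fin (r + 1)) E)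
      (V : Fin N → MvPolynomial (Fin (r + 1)) E), Irreducible F ∧ F.totalDegree ≤ δ ∧
      (∀ g, aeval y g = 0 ↔ F ∣ g) ∧ W.totalDegree ≤ δ ∧ aeval y W ≠ 0 ∧
      (∀ j, (V j).totalDegree ≤ δ) ∧ (∀ j, aeval y (V j) + aeval y W * x j = 0) := by
  classical
  obtain ⟨Φ, hΦd, hΦ, hΦ'⟩ := gen x v hv hvx δ C0 hδ hchar
  obtain ⟨c, hc⟩ : ∃ c : Fin N → E,
      eval (fun j => algebraMap E K (c j)) (gev x v (pderiv none Φ)) ≠ 0 := by
    by_contra hcon
    push Not at hcon
    apply hΦ'
    refine funext_set (fun _ => Set.range (algebraMap E K)) (fun _ =>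
      Set.infinite_range_of_injective (algebraMap E K).injective) fun y hy => ?_
    choose c hc using fun j => hy j (Set.mem_univ j)
    have hyc : y = fun j => algebraMap E K (c j) := _root_.funext fun j => (hc j).symm
    rw [map_zero, hyc, hcon c]
  have hy : AlgebraicIndependent E fun i : Fin r => sy x w c i.succ := hw
  have hW : aeval (sy x w c) (sp z c (pderiv none Φ)) ≠ 0 := by
    rw [aeval_sp x v w z c hz]
    exact hc
  have hU : aeval (sy x w c) (sp z c Φ) = 0 := by
    rw [aeval_sp x v w z c hz, hΦ, map_zero]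
  have hU0 : sp z c Φ ≠ 0 := by
    intro h
    apply hW
    rw [← pderiv_sp, h, map_zero, map_zero]
  obtain ⟨F, hF, hker⟩ := exists_gen_fin (sy x w c) hy _ hU0 hU
  refine ⟨sy x w c, F, sp z c (pderiv none Φ), fun j => sp z c (dc j Φ), hF, ?_, hker, ?_, hW,
    fun j => ?_, fun j => ?_⟩
  · obtain ⟨q, hq⟩ := (hker _).1 hU
    have hq0 : q ≠ 0 := by
      rintro rfl
      exact hU0 (by rw [hq, mul_zero])
    have h1 := (totalDegree_sp_le z c hzd Φ).trans hΦd
    rw [hq, totalDegree_mul_of_isDomain hF.ne_zero hq0] at h1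
    omega
  · exact (totalDegree_sp_le z c hzd _).trans ((totalDegree_pderiv_le' none Φ).trans hΦd)
  · exact (totalDegree_sp_le z c hzd _).trans ((totalDegree_dc_le j Φ).trans hΦd)
  · have h1 := pderiv_gev x v j Φ
    rw [hΦ, map_zero] at h1
    have h2 := congrArg (eval (fun j => algebraMap E K (c j))) h1
    rw [map_zero, map_add, map_mul, eval_C] at h2
    rw [aeval_sp x v w z c hz, aeval_sp x v w z c hz]
    exact h2.symm

end main

end Pool.Agent.N98
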