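import Pool.Agent.N98.Hyp
import Pool.Agent.W558.WD.All
import Pool.Agent.W558.S.FinalP

/-!
Models of affine varieties which are integral over the subalgebra generated by functions with
zeros and poles in the boundary.
-/

set_option autoImplicit false
set_option linter.unusedVariables false
set_option linter.unusedSectionVars false

universe u

open Pool.Agent.W558 Polynomial AlgebraicGeometry CategoryTheory Pool.Agent.H920R2

namespace Pool.Agent.N98

/-- Transitivity of integrality. -/
theorem isIntegral_adjoin_trans {k A G : Type*} [Field k] [CommRing A] [Algebra k A] (s : G → A)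
    (S' : Set A) (h : ∀ b, IsIntegral (Algebra.adjoin k S') (s b)) (a : A)
    (ha : IsIntegral (Algebra.adjoin k (Set.range s)) a) :
    IsIntegral (Algebra.adjoin k S') a := by
  let C := Algebra.adjoin k S'
  let C' := integralClosure C A
  have hsC : ∀ b, s b ∈ C' := h
  have hle : ∀ y ∈ Algebra.adjoin k (Set.range s), y ∈ C' := by
    intro y hy
    have h1 : Algebra.adjoin k (Set.range s) ≤ C'.restrictScalars k := by
      rw [Algebra.adjoin_le_iff]
      rintro _ ⟨b, rfl⟩
      exact hsC b
    exact h1 hy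
  obtain ⟨B, hB, hB'⟩ := ha
  let φ : Algebra.adjoin k (Set.range s) →+* C' :=
    { toFun := fun y => ⟨y, hle y y.2⟩
      map_one' := rfl
      map_mul' := fun y y' => rfl
      map_zero' := rfl
      map_add' := fun y y' => rfl }
  have h2 : IsIntegral C' a := by
    refine ⟨B.map φ, hB.map φ, ?_⟩
    rw [eval₂_map]
    have h3 : (algebraMap C' A).comp φ = algebraMap (Algebra.adjoin k (Set.range s)) A :=
      RingHom.ext fun y => rfl
    rw [h3]
    exact hB'
  exact isIntegral_trans (R := C) (A := C') a h2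

/-- Smooth charts over an affine variety. -/
theorem LM_of_isBr {k K : Type u} [Field k] [Field K] [Algebra k K] {T I G : Type} [Finite T]
    [Fintype I] [Finite G] (M : LM (⊥ : Subalgebra k K) ⊤ T I) (hFr : Frc M)
    (A : Type u) [CommRing A] [IsDomain A] [Algebra k A] [Algebra.FiniteType k A] [Algebra A K]
    [IsScalarTower k A K] [IsFractionRing A K] (s : G → A)
    (hs : ∀ b, s b ≠ 0 → IsBr M (algebraMap A K (s b)))
    (hA : ∀ a : A, IsIntegral (Algebra.adjoin k (Set.range s)) a) :
    ∃ (T' I' : Type) (_ : Finite T') (_ : Fintype I'),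
      Nonempty (LM (IsScalarTower.toAlgHom k A K).range (IsScalarTower.toAlgHom k A K).range
        T' I') := by
  classical
  let s0 : G → A := fun b => if s b = 0 then 1 else s b
  have hs0 : ∀ b, IsBr M (algebraMap A K (s0 b)) := by
    intro b
    by_cases h : s b = 0
    · have e : s0 b = 1 := if_pos h
      rw [e, map_one]
      exact IsB.one.br
    · have e : s0 b = s b := if_neg h
      rw [e]
      exact hs b h
  obtain ⟨N, hN, hB⟩ := exists_common hs0
  have hN0 : N ≠ 0 := by
    rintro rfl
    exact hN Nat.cast_zero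
  choose Γ hΓ using hB
  have hA' : ∀ a : A, IsIntegral (Algebra.adjoin k (Set.range fun b => s0 b ^ N)) a := by
    intro a
    refine isIntegral_adjoin_trans s _ (fun b => ?_) a (hA a)
    by_cases h : s b = 0
    · rw [h]
      exact isIntegral_zero
    · refine IsIntegral.of_pow (Nat.pos_of_ne_zero hN0) ?_
      have h2 : s b ^ N ∈ Algebra.adjoin k (Set.range fun b => s0 b ^ N) :=
        Algebra.subset_adjoin ⟨b, by simp only [s0, if_neg h]⟩
      exact isIntegral_algebraMap
        (x := (⟨_, h2⟩ : Algebra.adjoin k (Set.range fun b => s0 b ^ N)))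
  let ρ : A →ₐ[k] K := IsScalarTower.toAlgHom k A K
  have hfg : ρ.range.FG := by
    have h1 : (⊤ : Subalgebra k A).FG := Algebra.FiniteType.out
    have h2 := h1.map ρ
    rwa [Algebra.map_top] at h2
  have hint : ∀ y ∈ ρ.range, IsIntegral (Algebra.adjoin k
      (Set.range fun b : G => algebraMap A K (s0 b) ^ N)) y := by
    rintro _ ⟨a, rfl⟩
    have h1 : Algebra.adjoin k (Set.range fun b : G => algebraMap A K (s0 b) ^ N) =
        (Algebra.adjoin k (Set.range fun b => s0 b ^ N)).map ρ := by
      rw [AlgHom.map_adjoin, ← Set.range_comp]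
      congr 1
      congr 1
      funext b
      exact (map_pow ρ _ _).symm
    rw [h1]
    obtain ⟨B, hB, hB'⟩ := hA' a
    let φ : Algebra.adjoin k (Set.range fun b => s0 b ^ N) →+*
        (Algebra.adjoin k (Set.range fun b => s0 b ^ N)).map ρ :=
      { toFun := fun y => ⟨ρ y, ⟨y, y.2, rfl⟩⟩
        map_one' := Subtype.ext (map_one ρ)
        map_mul' := fun y y' => Subtype.ext (map_mul ρ _ _)
        map_zero' := Subtype.ext (map_zero ρ)
        map_add' := fun y y' => Subtype.ext (map_add ρ _ _) }
    refine ⟨B.map φ, hB.map φ, ?_⟩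
    rw [eval₂_map]
    have h2 : ((algebraMap ((Algebra.adjoin k (Set.range fun b => s0 b ^ N)).map ρ) K).comp φ) =
        ρ.toRingHom.comp (algebraMap (Algebra.adjoin k (Set.range fun b => s0 b ^ N)) A) :=
      RingHom.ext fun y => rfl
    rw [h2]
    have h3 := congrArg ρ.toRingHom hB'
    rw [hom_eval₂, map_zero] at h3
    exact h3
  have hfr : ∀ y : K, ∃ a ∈ ρ.range, ∃ b ∈ ρ.range, b ≠ 0 ∧ y = a * b⁻¹ := by
    intro y
    obtain ⟨a, b, hb, rfl⟩ := IsFractionRing.div_surjective (A := A) y
    exact ⟨_, ⟨a, rfl⟩, _, ⟨b, rfl⟩, by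
      have := nonZeroDivisors.ne_zero hb
      exact (FaithfulSMul.algebraMap_eq_zero_iff A K).not.2 this, div_eq_mul_inv _ _⟩
  obtain ⟨T', I', hT', hI', M', -⟩ := wd_res k K T I G M
    (fun b => algebraMap A K (s0 b) ^ N) Γ (fun b t => hΓ b t) hFr ρ.range hfg
    (fun b => ⟨s0 b ^ N, map_pow ρ _ _⟩) hint hfr
  exact ⟨T', I', hT', hI', ⟨M'⟩⟩

/-- Resolution. -/
theorem hasResolution_of_isBr {k K : Type u} [Field k] [Field K] [Algebra k K] {T I G : Type}
    [Finite T] [Fintype I] [Finite G] (M : LM (⊥ : Subalgebra k K) ⊤ T I) (hFr : Frc M)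
    (A : Type u) [CommRing A] [IsDomain A] [Algebra k A] [Algebra.FiniteType k A] [Algebra A K]
    [IsScalarTower k A K] [IsFractionRing A K] (s : G → A)
    (hs : ∀ b, s b ≠ 0 → IsBr M (algebraMap A K (s b)))
    (hA : ∀ a : A, IsIntegral (Algebra.adjoin k (Set.range s)) a) :
    HasResolution (X := Spec (CommRingCat.of A))
      (Spec.map (CommRingCat.ofHom (algebraMap k A))) := by
  obtain ⟨T', I', hT', hI', ⟨M'⟩⟩ := LM_of_isBr M hFr A s hs hA
  exact hasResolution_of_LM (IsScalarTower.toAlgHom k A K) (IsFractionRing.injective A K) M'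

section ops

variable {k K : Type u} [Field k] [Field K] [Algebra k K] {T I : Type} [Fintype I]
  {M : LM (⊥ : Subalgebra k K) ⊤ T I}

lemma IsBr.zpow {g : K} (h : IsBr M g) (n : ℤ) : IsBr M (g ^ n) := by
  rcases n with n | n
  · rw [Int.ofNat_eq_natCast, zpow_natCast]
    exact h.pow n
  · rw [zpow_negSucc]
    exact (h.pow _).inv

lemma IsBr.prod {ι : Type*} (s : Finset ι) (g : ι → K) (h : ∀ i ∈ s, IsBr M (g i)) :
    IsBr M (∏ i ∈ s, g i) := by
  classical
  induction s using Finset.induction_on with
  | empty =>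
    rw [Finset.prod_empty]
    exact IsB.one.br
  | insert a s ha ih =>
    rw [Finset.prod_insert ha]
    exact (h a (Finset.mem_insert_self a s)).mul
      (ih fun i hi => h i (Finset.mem_insert_of_mem hi))

end ops

/-- Small numbers are invertible in characteristic `p`. -/
lemma factorial_ne_zero_of_lt {k : Type*} [Field k] (p : ℕ) [CharP k p] (hp : p.Prime) {n : ℕ}
    (h : n < p) : ((Nat.factorial n : ℕ) : k) ≠ 0 := by
  rw [Ne, CharP.cast_eq_zero_iff k p, hp.dvd_factorial]
  omega

end Pool.Agent.N98
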