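import Mathlib

/-!
Counting: the degree of a relation is bounded by the growth of the spaces of values of
polynomials.
-/

set_option autoImplicit false
set_option linter.unusedVariables false
set_option linter.unusedSectionVars false

namespace Pool.Agent.N98

open MvPolynomial

/-- The values at `y` of the polynomials over `E` of total degree at most `t`. -/
noncomputable def img (E : Type*) {K τ : Type*} [Field E] [Field K] [Algebra E K] (y : τ → K)
    (t : ℕ) : Submodule E K :=
  (restrictTotalDegree τ E t).map (aeval y : MvPolynomial τ E →ₐ[E] K).toLinearMap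

lemma growth (d δ e C : ℕ) (h : ∀ u : ℕ, e * u ^ d ≤ δ * (u + C) ^ d) : e ≤ δ := by
  by_contra hlt
  push Not at hlt
  have h1 : δ + 1 ≤ e := hlt
  set u : ℕ := (δ + 1) * d * C + 1 with hu
  have h2 : (δ + 1) * u ^ d ≤ δ * (u + C) ^ d := (Nat.mul_le_mul_right _ h1).trans (h u)
  have hv : (0 : ℝ) < (u + C : ℕ) := by
    have : 0 < u + C := by omega
    exact_mod_cast this
  have h3 : ((δ : ℝ) + 1) * (u : ℝ) ^ d ≤ δ * ((u + C : ℕ) : ℝ) ^ d := by exact_mod_cast h2
  set v : ℝ := ((u + C : ℕ) : ℝ) with hvd
  have hu' : (u : ℝ) = v * (1 + (-(C / v))) := by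
    have : v = u + C := by rw [hvd]; push_cast; ring
    field_simp
    rw [this]
    ring
  have hC : (C : ℝ) / v ≤ 1 := by
    rw [div_le_one hv, hvd]
    push_cast
    have : (0 : ℝ) ≤ u := Nat.cast_nonneg _
    linarith
  have h4 : 1 + (d : ℝ) * (-(C / v)) ≤ (1 + (-(C / v))) ^ d :=
    one_add_mul_le_pow (by linarith) d
  have h5 : ((δ : ℝ) + 1) * (1 + (-(C / v))) ^ d ≤ δ := by
    rw [hu', mul_pow] at h3
    have hvp : (0 : ℝ) < v ^ d := pow_pos hv d
    have : v ^ d * (((δ : ℝ) + 1) * (1 + (-(C / v))) ^ d) ≤ v ^ d * δ := by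
      calc _ = ((δ : ℝ) + 1) * (v ^ d * (1 + (-(C / v))) ^ d) := by ring
        _ ≤ δ * v ^ d := h3
        _ = _ := by ring
    exact le_of_mul_le_mul_left this hvp
  have hδ : (0 : ℝ) < (δ : ℝ) + 1 := by positivity
  have h6 : ((δ : ℝ) + 1) * (1 + (d : ℝ) * (-(C / v))) ≤ δ :=
    (mul_le_mul_of_nonneg_left h4 hδ.le).trans h5
  have h7 : v ≤ ((δ : ℝ) + 1) * d * C := by
    have : 1 ≤ ((δ : ℝ) + 1) * (d * (C / v)) := by linarith
    have h8 : v * 1 ≤ v * (((δ : ℝ) + 1) * (d * (C / v))) := mul_le_mul_of_nonneg_left this hv.le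
    have h9 : v * (((δ : ℝ) + 1) * (d * (C / v))) = ((δ : ℝ) + 1) * d * C := by
      field_simp
    linarith
  have h10 : ((δ : ℝ) + 1) * d * C + 1 ≤ v := by
    rw [hvd, hu]
    push_cast
    have : (0 : ℝ) ≤ C := Nat.cast_nonneg _
    linarith
  linarith

section count

variable (E : Type*) [Field E] (τ : Type*) [Fintype τ]

lemma finrank_restrict (t : ℕ) :
    Module.finrank E (restrictTotalDegree τ E t) =
      Nat.card {n : τ →₀ ℕ | (n.sum fun _ e => e) ≤ t} :=
  Module.finrank_eq_nat_card_basis (basisRestrictSupport E _)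

lemma card_eq_sum (t : ℕ) :
    Nat.card {n : τ →₀ ℕ | (n.sum fun _ e => e) ≤ t} =
      ∑ s ∈ Finset.range (t + 1), (Fintype.card τ + s - 1).choose s := by
  classical
  have h1 : {n : τ →₀ ℕ | (n.sum fun _ e => e) ≤ t} =
      ((Finset.range (t + 1)).biUnion fun s =>
        Finset.finsuppAntidiag (Finset.univ : Finset τ) s : Finset (τ →₀ ℕ)) := by
    ext n
    simp only [Set.mem_ofPred_eq, Finset.coe_biUnion, Set.mem_iUnion, Finset.mem_coe,
      Finset.mem_range, Finset.mem_finsuppAntidiag', exists_prop]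
    constructor
    · intro h
      exact ⟨_, by omega, rfl, Finset.subset_univ _⟩
    · rintro ⟨s, hs, h, -⟩
      omega
  rw [h1, Nat.card_coe_set_eq, Set.ncard_coe_finset, Finset.card_biUnion]
  · refine Finset.sum_congr rfl fun s _ => ?_
    rw [Finset.card_finsuppAntidiag_nat_eq_choose, Finset.card_univ]
  · intro a _ b _ hab
    rw [Function.onFun, Finset.disjoint_left]
    intro n hn hn'
    rw [Finset.mem_finsuppAntidiag'] at hn hn'
    exact hab (hn.1.symm.trans hn'.1)

lemma finrank_restrict_succ (d : ℕ) (hd : Fintype.card τ = d + 1) (t : ℕ) :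
    d.factorial * Module.finrank E (restrictTotalDegree τ E t) + t ^ d ≤
      d.factorial * Module.finrank E (restrictTotalDegree τ E (t + 1)) := by
  rw [finrank_restrict, finrank_restrict, card_eq_sum, card_eq_sum, Finset.sum_range_succ _ (t + 1),
    mul_add]
  refine Nat.add_le_add_left ?_ _
  rw [hd]
  have h1 : (d + 1 + (t + 1) - 1).choose (t + 1) = (t + 1 + d).choose d := by
    rw [show d + 1 + (t + 1) - 1 = t + 1 + d by omega, Nat.choose_symm_add]
  rw [h1, ← Nat.ascFactorial_eq_factorial_mul_choose]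
  exact (Nat.pow_le_pow_left (by omega) d).trans (Nat.pow_succ_le_ascFactorial _ _)

lemma finrank_restrict_add (d : ℕ) (hd : Fintype.card τ = d + 1) (u e : ℕ) :
    d.factorial * Module.finrank E (restrictTotalDegree τ E u) + e * u ^ d ≤
      d.factorial * Module.finrank E (restrictTotalDegree τ E (u + e)) := by
  induction e with
  | zero => simp
  | succ e ih =>
    refine le_trans ?_ (finrank_restrict_succ E τ d hd (u + e))
    rw [Nat.succ_mul, ← add_assoc]
    exact Nat.add_le_add ih (Nat.pow_le_pow_left (by omega) d)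

end count

section main

variable {E K : Type*} [Field E] [Field K] [Algebra E K] {τ : Type*} [Fintype τ]

lemma finrank_le_of_ker (y : τ → K) (F : MvPolynomial τ E) (hF : F ≠ 0)
    (hker : ∀ g, aeval y g = 0 → F ∣ g) (u : ℕ) :
    Module.finrank E (restrictTotalDegree τ E (u + F.totalDegree)) ≤
      Module.finrank E (img E y (u + F.totalDegree)) +
        Module.finrank E (restrictTotalDegree τ E u) := by
  classical
  set V := restrictTotalDegree τ E (u + F.totalDegree)
  let φ : V →ₗ[E] K := (aeval y : MvPolynomial τ E →ₐ[E] K).toLinearMap.domRestrict V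
  have h1 := LinearMap.finrank_range_add_finrank_ker φ
  have h2 : LinearMap.range φ = img E y (u + F.totalDegree) := by
    rw [LinearMap.range_domRestrict]
    rfl
  rw [← h1, h2]
  refine Nat.add_le_add_left ?_ _
  -- the kernel
  let μ : restrictTotalDegree τ E u →ₗ[E] V :=
    { toFun := fun q => ⟨F * q, by
        rw [mem_restrictTotalDegree]
        have := (mem_restrictTotalDegree τ u (q : MvPolynomial τ E)).1 q.2
        exact (totalDegree_mul _ _).trans (by omega)⟩
      map_add' := fun a b => Subtype.ext (mul_add _ _ _)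
      map_smul' := fun c a => Subtype.ext (by
        change F * (c • (a : MvPolynomial τ E)) = c • (F * a)
        rw [mul_smul_comm]) }
  have h3 : LinearMap.ker φ ≤ LinearMap.range μ := by
    rintro ⟨g, hg⟩ hgφ
    have h4 : aeval y g = 0 := hgφ
    obtain ⟨q, rfl⟩ := hker g h4
    have hq : q.totalDegree ≤ u := by
      by_cases hq : q = 0
      · rw [hq, totalDegree_zero]
        exact Nat.zero_le _
      · rw [mem_restrictTotalDegree, totalDegree_mul_of_isDomain hF hq] at hg
        omega
    exact ⟨⟨q, (mem_restrictTotalDegree τ u q).2 hq⟩, Subtype.ext rfl⟩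
  exact (Submodule.finrank_mono h3).trans (LinearMap.finrank_range_le μ)

/-- The degree of the relation is bounded by the growth. -/
theorem totalDegree_le_of_growth (d : ℕ) (hd : Fintype.card τ = d + 1) (y : τ → K) (δ C : ℕ)
    (hδ : ∀ t : ℕ, d.factorial * Module.finrank E (img E y t) ≤ δ * (t + C) ^ d)
    (F : MvPolynomial τ E) (hF : F ≠ 0) (hker : ∀ g, aeval y g = 0 → F ∣ g) :
    F.totalDegree ≤ δ := by
  refine growth d δ F.totalDegree (F.totalDegree + C) fun u => ?_
  have h1 := finrank_restrict_add E τ d hd u F.totalDegree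
  have h2 := Nat.mul_le_mul_left d.factorial (finrank_le_of_ker y F hF hker u)
  rw [mul_add] at h2
  have h3 := hδ (u + F.totalDegree)
  rw [add_assoc u] at h3
  omega

/-- There is a relation. -/
theorem exists_rel_of_growth (d : ℕ) (hd : Fintype.card τ = d + 1) (y : τ → K) (δ C : ℕ)
    (hδ : ∀ t : ℕ, d.factorial * Module.finrank E (img E y t) ≤ δ * (t + C) ^ d) :
    ∃ g : MvPolynomial τ E, g ≠ 0 ∧ aeval y g = 0 := by
  classical
  by_contra hcon
  push Not at hcon
  have hinj : Function.Injective (aeval y : MvPolynomial τ E →ₐ[E] K) := by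
    rw [injective_iff_map_eq_zero]
    intro g hg
    by_contra h
    exact hcon g h hg
  have h1 : ∀ t, Module.finrank E (img E y t) = Module.finrank E (restrictTotalDegree τ E t) :=
    fun t => LinearEquiv.finrank_eq
      (Submodule.equivMapOfInjective (aeval y : MvPolynomial τ E →ₐ[E] K).toLinearMap hinj _).symm
  have h2 := growth d δ (δ + 1) (δ + 1 + C) fun u => ?_
  · omega
  · have h3 := finrank_restrict_add E τ d hd u (δ + 1)
    have h4 := hδ (u + (δ + 1))
    rw [h1, add_assoc u] at h4
    omega

end main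

end Pool.Agent.N98
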