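import Mathlib

/-!
Filtrations, determinants, and the degrees of the coefficients of a resultant.
-/

set_option autoImplicit false
set_option linter.unusedVariables false

open Polynomial

namespace Pool.Agent.N98

/-- A filtration of a ring. -/
structure Filt (R : Type*) [CommRing R] where
  /-- the pieces -/
  V : ℤ → AddSubgroup R
  one : (1 : R) ∈ V 0
  mul : ∀ {a b : ℤ} {x y : R}, x ∈ V a → y ∈ V b → x * y ∈ V (a + b)

section filt

variable {R : Type*} [CommRing R] (W : Filt R)

lemma Filt.prod {ι : Type*} (s : Finset ι) (a : ι → ℤ) (x : ι → R)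
    (h : ∀ i ∈ s, x i ∈ W.V (a i)) : ∏ i ∈ s, x i ∈ W.V (∑ i ∈ s, a i) := by
  classical
  induction s using Finset.induction_on with
  | empty => simpa using W.one
  | insert i s hi ih =>
    rw [Finset.prod_insert hi, Finset.sum_insert hi]
    exact W.mul (h i (Finset.mem_insert_self _ _)) (ih fun i hi => h i (Finset.mem_insert_of_mem hi))

lemma Filt.det {n : ℕ} (M : Matrix (Fin n) (Fin n) R) (r c : Fin n → ℤ)
    (h : ∀ i j, M i j ∈ W.V (r i + c j)) : M.det ∈ W.V (∑ i, r i + ∑ j, c j) := by
  rw [Matrix.det_apply]
  refine AddSubgroup.sum_mem _ fun σ _ => ?_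
  have h1 : ∏ i, M (σ i) i ∈ W.V (∑ i, r i + ∑ j, c j) := by
    have h2 := W.prod Finset.univ (fun i => r (σ i) + c i) (fun i => M (σ i) i)
      (fun i _ => h _ _)
    rw [Finset.sum_add_distrib, Equiv.sum_comp σ r] at h2
    exact h2
  rcases Int.units_eq_one_or (Equiv.Perm.sign σ) with h2 | h2
  · rw [h2, one_smul]
    exact h1
  · rw [h2, Units.neg_smul, one_smul]
    exact (W.V _).neg_mem h1

/-- The filtration of the polynomial ring where the variable has weight `D`. -/
def Filt.poly (D : ℤ) : Filt R[X] where
  V d :=
    { carrier := {q | ∀ j : ℕ, q.coeff j ∈ W.V (d - D * j)}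
      zero_mem' := fun j => by rw [coeff_zero]; exact (W.V _).zero_mem
      add_mem' := fun {p q} hp hq j => by rw [coeff_add]; exact (W.V _).add_mem (hp j) (hq j)
      neg_mem' := fun {p} hp j => by rw [coeff_neg]; exact (W.V _).neg_mem (hp j) }
  one := fun j => by
    rw [coeff_one]
    split_ifs with h
    · rw [h]
      simpa using W.one
    · exact (W.V _).zero_mem
  mul := fun {a b x y} hx hy j => by
    rw [coeff_mul]
    refine AddSubgroup.sum_mem _ fun p hp => ?_
    have h1 := W.mul (hx p.1) (hy p.2)
    rw [Finset.HasAntidiagonal.mem_antidiagonal] at hp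
    have h2 : a - D * (p.1 : ℤ) + (b - D * (p.2 : ℤ)) = a + b - D * (j : ℤ) := by
      rw [← hp]
      push_cast
      ring
    rwa [h2] at h1

lemma Filt.mem_poly {D d : ℤ} {q : R[X]} :
    q ∈ (W.poly D).V d ↔ ∀ j : ℕ, q.coeff j ∈ W.V (d - D * j) := Iff.rfl

lemma sum_fin_add (m n : ℕ) : ∑ i : Fin (m + n), (i.val : ℤ) =
    ∑ i : Fin m, (i.val : ℤ) + ∑ i : Fin n, (i.val : ℤ) + m * n := by
  rw [Fin.sum_univ_add]
  have h1 : ∑ i : Fin n, (((Fin.natAdd m i).val : ℕ) : ℤ) =
      ∑ i : Fin n, (i.val : ℤ) + m * n := by
    simp only [Fin.val_natAdd, Nat.cast_add, Finset.sum_add_distrib, Finset.sum_const,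
      Finset.card_univ, Fintype.card_fin, nsmul_eq_mul]
    ring
  rw [h1]
  simp only [Fin.val_castAdd]
  ring

/-- The weight of a resultant. -/
theorem Filt.resultant (f g : R[X]) (m n : ℕ) (D D' e : ℤ)
    (hf : ∀ t : ℕ, f.coeff t ∈ W.V (D - e * t)) (hg : ∀ t : ℕ, g.coeff t ∈ W.V (D' - e * t)) :
    Polynomial.resultant f g m n ∈ W.V (n * D + m * D' - e * (m * n)) := by
  have key := W.det (sylvester f g m n) (fun i => - (e * (i.val : ℤ)))
    (fun j => j.addCases (fun j₁ => D' + e * (j₁.val : ℤ)) (fun j₁ => D + e * (j₁.val : ℤ))) (by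
      intro i j
      induction j using Fin.addCases with
      | left j =>
        rw [Fin.addCases_left, sylvester, Matrix.of_apply, Fin.addCases_left]
        split_ifs with h
        · have h1 := hg (i.val - j.val)
          rw [Nat.cast_sub h.1] at h1
          have h2 : D' - e * ((i.val : ℤ) - j.val) = -(e * (i.val : ℤ)) + (D' + e * j.val) := by
            ring
          rwa [h2] at h1
        · exact (W.V _).zero_mem
      | right j =>
        rw [Fin.addCases_right, sylvester, Matrix.of_apply, Fin.addCases_right]
        split_ifs with h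
        · have h1 := hf (i.val - j.val)
          rw [Nat.cast_sub h.1] at h1
          have h2 : D - e * ((i.val : ℤ) - j.val) = -(e * (i.val : ℤ)) + (D + e * j.val) := by
            ring
          rwa [h2] at h1
        · exact (W.V _).zero_mem)
  have h1 : ∑ i : Fin (m + n), -(e * (i.val : ℤ)) + ∑ j : Fin (m + n), (j.addCases
      (fun j₁ => D' + e * (j₁.val : ℤ)) (fun j₁ => D + e * (j₁.val : ℤ)) : ℤ) =
      n * D + m * D' - e * (m * n) := by
    rw [Fin.sum_univ_add (fun j : Fin (m + n) => (j.addCases
      (fun j₁ => D' + e * (j₁.val : ℤ)) (fun j₁ => D + e * (j₁.val : ℤ)) : ℤ))]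
    simp only [Fin.addCases_left, Fin.addCases_right, Finset.sum_neg_distrib, ← Finset.mul_sum,
      Finset.sum_add_distrib, Finset.sum_const, Finset.card_univ, Fintype.card_fin, nsmul_eq_mul]
    rw [sum_fin_add]
    ring
  rw [h1] at key
  exact key

/-- The trivial filtration. -/
def trivFilt (R : Type*) [CommRing R] : Filt R where
  V d := if 0 ≤ d then ⊤ else ⊥
  one := by simp
  mul := by
    intro a b x y hx hy
    by_cases ha : 0 ≤ a
    · by_cases hb : 0 ≤ b
      · rw [if_pos (by omega)]
        trivial
      · rw [if_neg hb, AddSubgroup.mem_bot] at hy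
        rw [hy, mul_zero]
        exact AddSubgroup.zero_mem _
    · rw [if_neg ha, AddSubgroup.mem_bot] at hx
      rw [hx, zero_mul]
      exact AddSubgroup.zero_mem _

lemma mem_trivFilt {d : ℤ} {x : R} : x ∈ (trivFilt R).V d ↔ (0 ≤ d ∨ x = 0) := by
  change x ∈ (if 0 ≤ d then (⊤ : AddSubgroup R) else ⊥) ↔ _
  split_ifs with h
  · simp [h]
  · simp [h]

end filt

section tot

variable {σ E : Type*} [Field E]

/-- The filtration by the total degree. -/
def totFilt (σ E : Type*) [Field E] : Filt (MvPolynomial σ E) where
  V d :=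
    { carrier := {q | q ≠ 0 → (q.totalDegree : ℤ) ≤ d}
      zero_mem' := fun h => absurd rfl h
      add_mem' := fun {p q} hp hq h => by
        by_cases hp0 : p = 0
        · rw [hp0, zero_add] at h ⊢
          exact hq h
        by_cases hq0 : q = 0
        · rw [hq0, add_zero] at h ⊢
          exact hp h
        have h1 := MvPolynomial.totalDegree_add p q
        have h2 := hp hp0
        have h3 := hq hq0
        have h4 : ((p + q).totalDegree : ℤ) ≤ max (p.totalDegree : ℤ) q.totalDegree := by
          exact_mod_cast h1
        exact h4.trans (max_le h2 h3)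
      neg_mem' := fun {p} hp h => by
        rw [MvPolynomial.totalDegree_neg]
        exact hp (neg_ne_zero.1 h) }
  one := fun _ => by rw [MvPolynomial.totalDegree_one]; rfl
  mul := fun {a b x y} hx hy h => by
    have h1 := MvPolynomial.totalDegree_mul x y
    have h2 := hx (left_ne_zero_of_mul h)
    have h3 := hy (right_ne_zero_of_mul h)
    have h4 : ((x * y).totalDegree : ℤ) ≤ x.totalDegree + y.totalDegree := by exact_mod_cast h1
    omega

lemma mem_totFilt {d : ℤ} {q : MvPolynomial σ E} :
    q ∈ (totFilt σ E).V d ↔ (q ≠ 0 → (q.totalDegree : ℤ) ≤ d) := Iff.rfl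

/-- A polynomial with the total degree at most `D`. -/
def TD (D : ℕ) (G : (MvPolynomial σ E)[X]) : Prop :=
  ∀ i, G.coeff i ≠ 0 → (G.coeff i).totalDegree + i ≤ D

lemma TD.natDegree {D : ℕ} {G : (MvPolynomial σ E)[X]} (h : TD D G) : G.natDegree ≤ D := by
  by_cases h0 : G = 0
  · rw [h0, natDegree_zero]
    exact Nat.zero_le _
  · have h1 := h G.natDegree (by
      rw [coeff_natDegree, ne_eq, leadingCoeff_eq_zero]
      exact h0)
    omega

lemma TD.derivative {D : ℕ} {G : (MvPolynomial σ E)[X]} (h : TD D G) : TD D (derivative G) := by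
  intro i hi
  rw [coeff_derivative] at hi ⊢
  have h1 := h (i + 1) (left_ne_zero_of_mul hi)
  have h2 := MvPolynomial.totalDegree_mul (G.coeff (i + 1)) ((i : MvPolynomial σ E) + 1)
  have h3 : ((i : MvPolynomial σ E) + 1).totalDegree = 0 := by
    have : ((i : MvPolynomial σ E) + 1) = MvPolynomial.C ((i : E) + 1) := by simp
    rw [this, MvPolynomial.totalDegree_C]
  omega

/-- The characteristic polynomial of `G` modulo `F`. -/
noncomputable def chi {R : Type*} [CommRing R] (F G : R[X]) : R[X] :=
  Polynomial.resultant (F.map C) (C X - G.map C) F.natDegree G.natDegree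

/-- The characteristic polynomial, evaluated at `G`, is divisible by `F`. -/
lemma dvd_chi {R : Type*} [CommRing R] (F G : R[X]) (hF : F.natDegree ≠ 0) :
    F ∣ (chi F G).comp G := by
  obtain ⟨p, q, -, -, h⟩ := exists_mul_add_mul_eq_C_resultant (F.map C) (C X - G.map C)
    (m := F.natDegree) (n := G.natDegree) natDegree_map_le (by
      refine (natDegree_sub_le _ _).trans (max_le ?_ natDegree_map_le)
      rw [natDegree_C]
      exact Nat.zero_le _) (Or.inl hF)
  have h1 := congrArg (fun P : R[X][X] => eval₂ (compRingHom G) X P) h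
  simp only [eval₂_add, eval₂_mul, eval₂_sub, eval₂_C] at h1
  have h2 : eval₂ (compRingHom G) X (F.map C) = F := by
    rw [eval₂_map]
    have e : (compRingHom G).comp (C : R →+* R[X]) = C := by
      apply RingHom.ext
      intro a
      simp
    rw [e, eval₂_C_X]
  have h3 : eval₂ (compRingHom G) X (G.map C) = G := by
    rw [eval₂_map]
    have e : (compRingHom G).comp (C : R →+* R[X]) = C := by
      apply RingHom.ext
      intro a
      simp
    rw [e, eval₂_C_X]
  have h4 : compRingHom G X = G := by simp
  rw [h2, h3, h4, sub_self, zero_mul, add_zero] at h1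
  exact ⟨_, h1.symm⟩

/-- The degree of the characteristic polynomial. -/
lemma natDegree_chi {R : Type*} [CommRing R] (F G : R[X]) :
    (chi F G).natDegree ≤ F.natDegree := by
  have key := ((trivFilt R).poly 1).resultant (F.map C) (C X - G.map C) F.natDegree G.natDegree
    0 1 0 (by
      intro t
      rw [coeff_map, Filt.mem_poly]
      intro j
      rw [coeff_C, mem_trivFilt]
      split_ifs with h
      · left
        rw [h]
        simp
      · right
        rfl) (by
      intro t
      rw [coeff_sub, coeff_map, coeff_C, Filt.mem_poly]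
      intro j
      rw [mem_trivFilt]
      by_cases hj : 2 ≤ j
      · right
        rw [coeff_sub, coeff_C_of_ne_zero (show j ≠ 0 by omega), sub_zero]
        split_ifs with h
        · rw [coeff_X, if_neg (by omega)]
        · exact coeff_zero _
      · left
        push Not at hj
        omega)
  rw [natDegree_le_iff_coeff_eq_zero]
  intro N hN
  rw [Filt.mem_poly] at key
  have h1 := key N
  rw [mem_trivFilt] at h1
  refine h1.resolve_left ?_
  push Not
  have : (F.natDegree : ℤ) < N := by exact_mod_cast hN
  linarith

/-- The total degrees of the coefficients of the characteristic polynomial. -/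
lemma totalDegree_chi {D : ℕ} {F G : (MvPolynomial σ E)[X]} (hF : TD D F) (hG : TD D G) (j : ℕ) 
    (hj : (chi F G).coeff j ≠ 0) : ((chi F G).coeff j).totalDegree ≤ D ^ 2 := by
  have hFm := hF.natDegree
  have hGn := hG.natDegree
  have key := ((totFilt σ E).poly D).resultant (F.map C) (C X - G.map C) F.natDegree G.natDegree
    D D 1 (by
      intro t
      rw [coeff_map, Filt.mem_poly]
      intro j
      rw [coeff_C, mem_totFilt]
      split_ifs with h
      · intro h0
        have h1 := hF t h0
        have h2 : ((F.coeff t).totalDegree : ℤ) + t ≤ D := by exact_mod_cast h1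
        rw [h]
        push_cast
        linarith
      · intro h0
        exact absurd rfl h0) (by
      intro t
      rw [coeff_sub, coeff_map, coeff_C]
      refine AddSubgroup.sub_mem _ ?_ ?_
      · rw [Filt.mem_poly]
        intro j
        rw [mem_totFilt]
        split_ifs with h
        · rw [coeff_X]
          split_ifs with h'
          · intro _
            rw [MvPolynomial.totalDegree_one, h, ← h']
            push_cast
            linarith
          · intro h0
            exact absurd rfl h0
        · intro h0
          exact absurd (coeff_zero _) h0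
      · rw [Filt.mem_poly]
        intro j
        rw [coeff_C, mem_totFilt]
        split_ifs with h
        · intro h0
          have h1 := hG t h0
          have h2 : ((G.coeff t).totalDegree : ℤ) + t ≤ D := by exact_mod_cast h1
          rw [h]
          push_cast
          linarith
        · intro h0
          exact absurd rfl h0)
  rw [Filt.mem_poly] at key
  have h1 := key j
  rw [mem_totFilt] at h1
  have h2 := h1 hj
  have h3 : (F.natDegree : ℤ) ≤ D := by exact_mod_cast hFm
  have h4 : (G.natDegree : ℤ) ≤ D := by exact_mod_cast hGn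
  have h5 : (((chi F G).coeff j).totalDegree : ℤ) ≤ (D : ℤ) ^ 2 := by
    refine h2.trans ?_
    have h6 : (0 : ℤ) ≤ D * j := by positivity
    nlinarith [mul_nonneg (sub_nonneg.2 h3) (sub_nonneg.2 h4)]
  exact_mod_cast h5

/-- The characteristic polynomial is not zero. -/
lemma chi_ne_zero {R : Type*} [CommRing R] [IsDomain R] (F G : R[X]) (hF : F ≠ 0) :
    chi F G ≠ 0 := by
  classical
  let Ω := AlgebraicClosure (FractionRing R)
  let ι : R →+* Ω := (algebraMap (FractionRing R) Ω).comp (algebraMap R (FractionRing R))
  have hι : Function.Injective ι :=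
    (algebraMap (FractionRing R) Ω).injective.comp (IsFractionRing.injective R (FractionRing R))
  have hFι : F.map ι ≠ 0 := (Polynomial.map_ne_zero_iff hι).2 hF
  -- choose a value of the variable
  obtain ⟨y, hy⟩ := Infinite.exists_notMem_finset
    ((F.map ι).roots.toFinset.image fun a => (G.map ι).eval a)
  intro h0
  have h1 : (evalRingHom y) ((chi F G).map ι) = 0 := by rw [h0]; simp
  have h2 : (evalRingHom y) ((chi F G).map ι) =
      Polynomial.resultant (F.map ι) (C y - G.map ι) F.natDegree G.natDegree := by
    have e : (evalRingHom y) ((chi F G).map ι) = ((evalRingHom y).comp (mapRingHom ι)) (chi F G) :=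
      rfl
    have e' : ((evalRingHom y).comp (mapRingHom ι)).comp (C : R →+* R[X]) = ι := by
      apply RingHom.ext
      intro a
      simp
    rw [e, chi, ← resultant_map_map]
    congr 1
    · rw [Polynomial.map_map, e']
    · rw [Polynomial.map_sub, Polynomial.map_map, e', map_C]
      simp
  rw [h2] at h1
  have h3 : F.natDegree = (F.map ι).natDegree := (natDegree_map_eq_of_injective hι F).symm
  rw [h3, resultant_eq_prod_eval _ _ _ (by
    refine (natDegree_sub_le _ _).trans (max_le ?_ natDegree_map_le)
    rw [natDegree_C]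
    exact Nat.zero_le _) (IsAlgClosed.splits _)] at h1
  rcases mul_eq_zero.1 h1 with h4 | h4
  · exact hFι (leadingCoeff_eq_zero.1 (eq_zero_of_pow_eq_zero h4))
  · rw [Multiset.prod_eq_zero_iff, Multiset.mem_map] at h4
    obtain ⟨a, ha, h5⟩ := h4
    apply hy
    rw [Finset.mem_image]
    refine ⟨a, Multiset.mem_toFinset.2 ha, ?_⟩
    rw [eval_sub, eval_C, sub_eq_zero] at h5
    exact h5.symm

end tot

end Pool.Agent.N98
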