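import Pool.Agent.N98.Abs

/-!
Models of varieties of bounded degree over a field with log models: the relative version.
-/

set_option autoImplicit false
set_option linter.unusedVariables false
set_option linter.unusedSectionVars false

universe u

namespace Pool.Agent.N98

open MvPolynomial Pool.Agent.W558 Pool.Agent.W418.LCI

section rel

variable {k E K : Type u} [Field k] [Field E] [Field K] [Algebra E K] [Algebra k E] [Algebra k K]
  [IsScalarTower k E K] {N : ℕ} (x : Fin N → K)

/-- **Models of varieties of bounded degree**, the relative version. -/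
theorem rel_models (hE : HasLM k E) [Infinite E]
    (htop : IntermediateField.adjoin E (Set.range x) = ⊤) (r : ℕ)
    (htr : Algebra.trdeg E K = r) (δ C0 : ℕ)
    (hδ : ∀ t : ℕ, r.factorial * Module.finrank E (img E x t) ≤ δ * (t + C0) ^ r)
    (hchar : ((Nat.factorial (δ ^ 2 ^ r) : ℕ) : k) ≠ 0)
    (B : Type) [Finite B] (a0 : B → E) (a : B → Fin N → E)
    (hb : ∀ b, algebraMap E K (a0 b) + ∑ j, algebraMap E K (a b j) * x j ≠ 0) :
    ∃ (T I : Type) (_ : Finite T) (_ : Fintype I) (M : LM (⊥ : Subalgebra k K) ⊤ T I),
      Frc M ∧ ∀ b, IsBr M (algebraMap E K (a0 b) + ∑ j, algebraMap E K (a b j) * x j) := by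
  classical
  obtain ⟨v, hv, hvx⟩ := exists_basis x htop r htr (Fintype.card_fin r)
  exact deg_models (k := k) (k0 := E) (E := E) x v v (fun i => X i) hE htop hv
    (fun i => by
      obtain ⟨j, hj⟩ := hvx i
      rw [hj]
      exact x_mem_img x j) hv (fun i => aeval_X _ _) (fun i => (totalDegree_X (R := E) i).le) δ C0
    (one_le_of_growth x r δ C0 hδ) (by rw [Fintype.card_fin]; exact hδ) hchar B a0 a hb

end rel

section inf

variable {k E : Type u} [Field k] [Field E] [Algebra k E]

lemma infinite_of_trdeg (h : Algebra.trdeg k E = 2) : Infinite E := by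
  by_contra hfin
  rw [not_infinite_iff_finite] at hfin
  have h1 : Algebra.IsAlgebraic k E := by
    have h2 : Finite k := Finite.of_injective (algebraMap k E) (algebraMap k E).injective
    have h3 : Module.Finite k E := Module.Finite.of_finite
    infer_instance
  have h2 : Algebra.trdeg k E = 0 := by
    exact trdeg_eq_zero
  rw [h2] at h
  exact absurd h (by norm_num)

end inf

end Pool.Agent.N98
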