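import Pool.Agent.N98.Prin
import Pool.Agent.N98.Cnt

/-!
The equation of the generic projection.
-/

set_option autoImplicit false
set_option linter.unusedVariables false
set_option linter.unusedSectionVars false

universe u

namespace Pool.Agent.N98

open MvPolynomial

section clear

/-- Clearing denominators. -/
lemma exists_clear {R L σ : Type*} [CommRing R] [IsDomain R] [Field L] [Algebra R L]
    [IsFractionRing R L] (g : MvPolynomial σ L) :
    ∃ (b : R) (g0 : MvPolynomial σ R), b ≠ 0 ∧
      map (algebraMap R L) g0 = C (algebraMap R L b) * g := by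
  induction g using MvPolynomial.induction_on with
  | C a =>
    obtain ⟨r, s, hs, rfl⟩ := IsFractionRing.div_surjective (A := R) a
    refine ⟨s, C r, nonZeroDivisors.ne_zero hs, ?_⟩
    have h0 : algebraMap R L s ≠ 0 := by
      intro h
      exact nonZeroDivisors.ne_zero hs (IsFractionRing.injective R L (h.trans (map_zero _).symm))
    rw [map_C, ← map_mul, mul_div_cancel₀ _ h0]
  | add p q hp hq =>
    obtain ⟨b, p0, hb, h1⟩ := hp
    obtain ⟨c, q0, hc, h2⟩ := hq
    refine ⟨b * c, C c * p0 + C b * q0, mul_ne_zero hb hc, ?_⟩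
    rw [map_add, map_mul, map_mul, map_C, map_C, h1, h2, map_mul, map_mul]
    ring
  | mul_X p i hp =>
    obtain ⟨b, p0, hb, h1⟩ := hp
    refine ⟨b, p0 * X i, hb, ?_⟩
    rw [map_mul, map_X, h1, mul_assoc]

/-- Polynomials with polynomial coefficients. -/
lemma inj_nested {k0 K σ N : Type*} [Field k0] [Field K] [Algebra k0 K] (v : σ → K)
    (hv : AlgebraicIndependent k0 v) :
    Function.Injective (eval₂Hom (map (σ := N) (algebraMap k0 K)) (fun i => C (v i)) :
      MvPolynomial σ (MvPolynomial N k0) →+* MvPolynomial N K) := by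
  have h1 : (eval₂Hom (map (σ := N) (algebraMap k0 K)) (fun i => C (v i)) :
      MvPolynomial σ (MvPolynomial N k0) →+* MvPolynomial N K) =
      (map ((aeval v : MvPolynomial σ k0 →ₐ[k0] K) : MvPolynomial σ k0 →+* K)).comp
        (commAlgEquiv k0 σ N : MvPolynomial σ (MvPolynomial N k0) →+* _) := by
    apply MvPolynomial.ringHom_ext
    · intro r
      simp only [coe_eval₂Hom, eval₂_C, RingHom.comp_apply, RingHom.coe_coe, commAlgEquiv_C,
        map_map]
      congr 1
      congr 1
      ext a
      simp
    · intro i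
      simp
  rw [h1]
  exact (map_injective _ hv).comp (commAlgEquiv k0 σ N).injective

end clear

section span

/-- Extension of scalars does not increase dimensions. -/
lemma finrank_span_image_le {k0 K E1 K2 : Type*} [Field k0] [Field K] [Algebra k0 K]
    [Field E1] [Field K2] [Algebra E1 K2] (ω : k0 →+* E1) (ψ : K →+* K2)
    (hωψ : ∀ c, ψ (algebraMap k0 K c) = algebraMap E1 K2 (ω c)) (U : Submodule k0 K)
    [FiniteDimensional k0 U] :
    Module.finrank E1 (Submodule.span E1 (ψ '' (U : Set K))) ≤ Module.finrank k0 U ∧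
      FiniteDimensional E1 (Submodule.span E1 (ψ '' (U : Set K))) := by
  classical
  let b := Module.finBasis k0 U
  have h1 : Submodule.span E1 (ψ '' (U : Set K)) =
      Submodule.span E1 (Set.range fun i => ψ (b i : K)) := by
    apply le_antisymm
    · rw [Submodule.span_le]
      rintro _ ⟨u, hu, rfl⟩
      have h2 := b.sum_repr ⟨u, hu⟩
      have h3 := congrArg (fun z : U => ψ (z : K)) h2
      simp only [Submodule.coe_sum, Submodule.coe_smul, map_sum] at h3
      rw [SetLike.mem_coe, ← h3]
      refine Submodule.sum_mem _ fun i _ => ?_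
      rw [Algebra.smul_def, map_mul, hωψ, ← Algebra.smul_def]
      exact Submodule.smul_mem _ _ (Submodule.subset_span ⟨i, rfl⟩)
    · rw [Submodule.span_le]
      rintro _ ⟨i, rfl⟩
      exact Submodule.subset_span ⟨_, (b i).2, rfl⟩
  rw [h1]
  constructor
  · have h2 := finrank_range_le_card (R := E1) (b := fun i => ψ (b i : K))
    rw [Fintype.card_fin] at h2
    exact h2
  · exact FiniteDimensional.span_of_finite E1 (Set.finite_range _)

variable {k0 K E1 K2 : Type*} [Field k0] [Field K] [Algebra k0 K] [Field E1] [Field K2]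
  [Algebra E1 K2] {M : Type*} (x : M → K)

lemma mem_img_iff {t : ℕ} {z : K} :
    z ∈ img k0 x t ↔ ∃ g : MvPolynomial M k0, g.totalDegree ≤ t ∧ aeval x g = z := by
  unfold img
  rw [Submodule.mem_map]
  constructor
  · rintro ⟨g, hg, rfl⟩
    exact ⟨g, (mem_restrictTotalDegree M t g).1 hg, rfl⟩
  · rintro ⟨g, hg, rfl⟩
    exact ⟨g, (mem_restrictTotalDegree M t g).2 hg, rfl⟩

lemma img_mono {s t : ℕ} (h : s ≤ t) : img k0 x s ≤ img k0 x t := by
  intro z hz
  rw [mem_img_iff] at hz ⊢
  obtain ⟨g, hg, rfl⟩ := hz
  exact ⟨g, hg.trans h, rfl⟩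

lemma one_mem_img (t : ℕ) : (1 : K) ∈ img k0 x t := by
  rw [mem_img_iff]
  exact ⟨1, by rw [totalDegree_one]; exact Nat.zero_le _, map_one _⟩

lemma mul_mem_img {s t : ℕ} {a b : K} (ha : a ∈ img k0 x s) (hb : b ∈ img k0 x t) :
    a * b ∈ img k0 x (s + t) := by
  rw [mem_img_iff] at ha hb ⊢
  obtain ⟨g, hg, rfl⟩ := ha
  obtain ⟨h, hh, rfl⟩ := hb
  exact ⟨g * h, (totalDegree_mul _ _).trans (by omega), map_mul _ _ _⟩

lemma x_mem_img (i : M) : x i ∈ img k0 x 1 := by
  rw [mem_img_iff]
  exact ⟨X i, by rw [totalDegree_X], aeval_X _ _⟩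

/-- Spaces of values after an extension of scalars. -/
lemma img_le_span (ω : k0 →+* E1) (ψ : K →+* K2)
    (hωψ : ∀ c, ψ (algebraMap k0 K c) = algebraMap E1 K2 (ω c)) {τ : Type*} (y : τ → K2)
    (hy : ∀ i, y i ∈ Submodule.span E1 (ψ '' (img k0 x 1 : Set K))) (t : ℕ) :
    img E1 y t ≤ Submodule.span E1 (ψ '' (img k0 x t : Set K)) := by
  classical
  let V : ℕ → Submodule E1 K2 := fun t => Submodule.span E1 (ψ '' (img k0 x t : Set K))
  have hmono : ∀ s t, s ≤ t → V s ≤ V t := fun s t h =>
    Submodule.span_mono (Set.image_mono (img_mono x h))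
  have hmul : ∀ s t (a b : K2), a ∈ V s → b ∈ V t → a * b ∈ V (s + t) := by
    intro s t a b ha hb
    have h1 : a * b ∈ V s * V t := Submodule.mul_mem_mul ha hb
    have h2 : V s * V t ≤ V (s + t) := by
      change Submodule.span E1 _ * Submodule.span E1 _ ≤ _
      rw [Submodule.span_mul_span, Submodule.span_le]
      rintro _ ⟨_, ⟨a, ha, rfl⟩, _, ⟨b, hb, rfl⟩, rfl⟩
      refine Submodule.subset_span ⟨a * b, mul_mem_img x ha hb, map_mul _ _ _⟩
    exact h2 h1
  have hone : ∀ t, (1 : K2) ∈ V t := fun t =>
    Submodule.subset_span ⟨1, one_mem_img x t, map_one _⟩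
  have hpow : ∀ i n, y i ^ n ∈ V n := by
    intro i n
    induction n with
    | zero => rw [pow_zero]; exact hone 0
    | succ n ih => rw [pow_succ]; exact hmul n 1 _ _ ih (hy i)
  have hmon : ∀ m : τ →₀ ℕ, (m.prod fun i n => y i ^ n) ∈ V (m.sum fun _ n => n) := by
    intro m
    induction m using Finsupp.induction with
    | zero => rw [Finsupp.prod_zero_index]; exact hone _
    | single_add i n m hi hn ih =>
      rw [Finsupp.prod_add_index_of_disjoint, Finsupp.sum_add_index_of_disjoint,
        Finsupp.prod_single_index (h := fun i n => y i ^ n) (pow_zero _),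
        Finsupp.sum_single_index (h := fun _ n => n) rfl]
      · exact hmul _ _ _ _ (hpow i n) ih
      · rw [Finset.disjoint_left]
        intro a ha ha'
        rw [Finsupp.support_single _ hn, Finset.mem_singleton] at ha
        exact hi (ha ▸ ha')
      · rw [Finset.disjoint_left]
        intro a ha ha'
        rw [Finsupp.support_single _ hn, Finset.mem_singleton] at ha
        exact hi (ha ▸ ha')
  intro z hz
  rw [mem_img_iff] at hz
  obtain ⟨g, hg, rfl⟩ := hz
  rw [aeval_def, eval₂_eq]
  refine Submodule.sum_mem _ fun m hm => ?_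
  rw [← Algebra.smul_def]
  refine Submodule.smul_mem _ _ ?_
  exact hmono _ _ ((le_totalDegree hm).trans hg) (hmon m)

end span

section deriv

lemma totalDegree_pderiv_add_one_le {E τ : Type*} [CommRing E] (i : τ) (F : MvPolynomial τ E)
    (h : pderiv i F ≠ 0) : (pderiv i F).totalDegree + 1 ≤ F.totalDegree := by
  classical
  have hne : (pderiv i F).support.Nonempty := by
    rw [Finset.nonempty_iff_ne_empty]
    intro h0
    exact h (support_eq_empty.1 h0)
  obtain ⟨m, hm, hmax⟩ := Finset.exists_mem_eq_sup _ hne (fun s => s.sum fun _ e => e)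
  have h1 : (pderiv i F).totalDegree = m.sum fun _ e => e := hmax
  rw [h1]
  have h2 : m + Finsupp.single i 1 ∈ F.support := by
    rw [mem_support_iff] at hm ⊢
    intro h0
    apply hm
    rw [coeff_pderiv, h0]
    simp
  refine le_trans ?_ (le_totalDegree h2)
  rw [Finsupp.sum_add_index' (fun _ => rfl) (fun _ _ _ => rfl), Finsupp.sum_single_index rfl]

lemma totalDegree_pderiv_le' {E τ : Type*} [CommRing E] (i : τ) (F : MvPolynomial τ E) :
    (pderiv i F).totalDegree ≤ F.totalDegree := by
  by_cases h : pderiv i F = 0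
  · rw [h, totalDegree_zero]
    exact Nat.zero_le _
  · have := totalDegree_pderiv_add_one_le i F h
    omega

/-- The derivative of the relation does not vanish. -/
lemma aeval_pderiv_ne {E K σ : Type*} [Field E] [Field K] [Algebra E K] (y : Option σ → K)
    (hy : AlgebraicIndependent E fun i => y (some i)) (F : MvPolynomial (Option σ) E)
    (hF : Irreducible F) (hker : ∀ g, aeval y g = 0 ↔ F ∣ g) (δ : ℕ) (hδ : F.totalDegree ≤ δ)
    (hchar : ((Nat.factorial δ : ℕ) : E) ≠ 0) : aeval y (pderiv none F) ≠ 0 := by
  classical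
  intro h
  have hd := (hker _).1 h
  by_cases h0 : pderiv none F = 0
  · have hm0 : ∀ m ∈ F.support, m none = 0 := by
      intro m hm
      by_contra hne
      have h1 : m - Finsupp.single none 1 + Finsupp.single none 1 = m := by
        apply tsub_add_cancel_of_le
        rw [Finsupp.single_le_iff]
        omega
      have h2 := coeff_pderiv (i := none) F (m - Finsupp.single none 1)
      rw [h0, h1, coeff_zero] at h2
      have h3 : ((m - Finsupp.single none 1 : Option σ →₀ ℕ) none : E) + 1 = (m none : ℕ) := by
        rw [Finsupp.tsub_apply, Finsupp.single_eq_same]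
        have : m none = (m none - 1) + 1 := by omega
        conv_rhs => rw [this]
        push_cast
        rfl
      have h5 : ((m none : ℕ) : E) ≠ 0 := by
        intro h6
        apply hchar
        have h7 : m none ≤ δ := by
          have h8 := (le_totalDegree hm).trans hδ
          refine le_trans ?_ h8
          by_cases h9 : none ∈ m.support
          · exact Finset.single_le_sum (f := fun i => m i) (fun _ _ => Nat.zero_le _) h9
          · rw [Finsupp.mem_support_iff, not_not] at h9
            exact absurd h9 hne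
        obtain ⟨c, hc⟩ := Nat.dvd_factorial (Nat.pos_of_ne_zero hne) h7
        rw [hc, Nat.cast_mul, h6, zero_mul]
      rw [mem_support_iff] at hm
      rcases mul_eq_zero.1 h2.symm with h4 | h4
      · exact hm h4
      · rw [h3] at h4
        exact h5 h4
    have hv : (F.vars : Set (Option σ)) ⊆ Set.range some := by
      intro o ho
      rw [Finset.mem_coe, mem_vars_iff_mem_support] at ho
      obtain ⟨m, hm, hmo⟩ := ho
      rcases o with _ | i
      · rw [Finsupp.mem_support_iff] at hmo
        exact absurd (hm0 m hm) hmo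
      · exact ⟨i, rfl⟩
    obtain ⟨G, rfl⟩ := exists_rename_eq_of_vars_subset_range F some
      (Option.some_injective σ) hv
    have h1 : aeval y (rename some G) = 0 := (hker _).2 dvd_rfl
    rw [aeval_rename] at h1
    have h2 : G = 0 := by
      apply hy
      rw [map_zero]
      exact h1
    exact hF.ne_zero (by rw [h2, map_zero])
  · obtain ⟨q, hq⟩ := hd
    have hq0 : q ≠ 0 := by
      rintro rfl
      exact h0 (by rw [hq, mul_zero])
    have h1 := totalDegree_pderiv_add_one_le none F h0
    rw [hq, totalDegree_mul_of_isDomain hF.ne_zero hq0] at h1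
    omega

end deriv

section gen

variable {k0 K : Type u} [Field k0] [Field K] [Algebra k0 K] {N : ℕ} (x : Fin N → K) {σ : Type}
  (v : σ → K)

/-- The coordinates of the generic projection. -/
noncomputable def gy : Option σ → MvPolynomial (Fin N) K :=
  fun o => o.elim (∑ j, X j * C (x j)) fun i => C (v i)

/-- Evaluation of polynomials at the coordinates of the generic projection. -/
noncomputable def gev : MvPolynomial (Option σ) (MvPolynomial (Fin N) k0) →+*
    MvPolynomial (Fin N) K :=
  eval₂Hom (map (algebraMap k0 K)) (gy x v)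

/-- The equation of the generic projection. -/
theorem gen [Fintype σ] (hv : AlgebraicIndependent k0 v) (hvx : ∀ i, v i ∈ img k0 x 1) (δ C0 : ℕ)
    (hδ : ∀ t : ℕ, (Fintype.card σ).factorial * Module.finrank k0 (img k0 x t) ≤
      δ * (t + C0) ^ Fintype.card σ) (hchar : ((Nat.factorial δ : ℕ) : k0) ≠ 0) :
    ∃ Φ : MvPolynomial (Option σ) (MvPolynomial (Fin N) k0), Φ.totalDegree ≤ δ ∧
      gev x v Φ = 0 ∧ gev x v (pderiv none Φ) ≠ 0 := by
  classical
  let ET := MvPolynomial (Fin N) k0
  let KT := MvPolynomial (Fin N) K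
  let E1 := FractionRing ET
  let K2 := FractionRing KT
  let χ : ET →+* K2 := (algebraMap KT K2).comp (map (algebraMap k0 K))
  have hχ : Function.Injective χ :=
    (IsFractionRing.injective KT K2).comp (map_injective _ (algebraMap k0 K).injective)
  let φ : E1 →+* K2 := IsFractionRing.lift hχ
  have hφ : ∀ a : ET, φ (algebraMap ET E1 a) = algebraMap KT K2 (map (algebraMap k0 K) a) :=
    fun a => IsFractionRing.lift_algebraMap hχ a
  let _ : Algebra E1 K2 := φ.toAlgebra
  have hφ' : ∀ a : E1, algebraMap E1 K2 a = φ a := fun a => rfl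
  let y : Option σ → K2 := fun o => algebraMap KT K2 (gy x v o)
  -- evaluation of polynomials over `ET`
  have hev : ∀ Φ : MvPolynomial (Option σ) ET, aeval y (map (algebraMap ET E1) Φ) =
      algebraMap KT K2 (gev x v Φ) := by
    intro Φ
    have h1 : ((aeval y : MvPolynomial (Option σ) E1 →ₐ[E1] K2) :
        MvPolynomial (Option σ) E1 →+* K2).comp (map (algebraMap ET E1)) =
        (algebraMap KT K2).comp (gev x v) := by
      apply MvPolynomial.ringHom_ext
      · intro a
        simp only [RingHom.comp_apply, map_C, RingHom.coe_coe, aeval_C, hφ', hφ, gev,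
          coe_eval₂Hom, eval₂_C]
      · intro o
        simp only [RingHom.comp_apply, map_X, RingHom.coe_coe, aeval_X, gev, coe_eval₂Hom,
          eval₂_X]
        rfl
    exact RingHom.congr_fun h1 Φ
  have hinjK : Function.Injective (algebraMap KT K2) := IsFractionRing.injective KT K2
  -- independence
  have hyind : AlgebraicIndependent E1 fun i => y (some i) := by
    rw [algebraicIndependent_iff]
    intro g hg
    obtain ⟨b, g0, hb, hg0⟩ := exists_clear (R := ET) g
    have h1 : aeval (fun i => y (some i)) (map (algebraMap ET E1) g0) = 0 := by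
      rw [hg0, map_mul, hg, mul_zero]
    have h2 : aeval (fun i => y (some i)) (map (algebraMap ET E1) g0) =
        algebraMap KT K2 (eval₂Hom (map (algebraMap k0 K)) (fun i => C (v i)) g0) := by
      have h3 : ((aeval (fun i => y (some i)) : MvPolynomial σ E1 →ₐ[E1] K2) :
          MvPolynomial σ E1 →+* K2).comp (map (algebraMap ET E1)) =
          (algebraMap KT K2).comp (eval₂Hom (map (algebraMap k0 K)) (fun i => C (v i))) := by
        apply MvPolynomial.ringHom_ext
        · intro a
          simp only [RingHom.comp_apply, map_C, RingHom.coe_coe, aeval_C, hφ', hφ,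
            coe_eval₂Hom, eval₂_C]
        · intro o
          simp only [RingHom.comp_apply, map_X, RingHom.coe_coe, aeval_X, coe_eval₂Hom,
            eval₂_X]
          rfl
      exact RingHom.congr_fun h3 g0
    rw [h2] at h1
    have h4 : eval₂Hom (map (algebraMap k0 K)) (fun i => C (v i)) g0 = 0 :=
      hinjK (h1.trans (map_zero _).symm)
    have h5 : g0 = 0 := inj_nested v hv (h4.trans (map_zero _).symm)
    rw [h5, map_zero] at hg0
    have hb' : (C (algebraMap ET E1 b) : MvPolynomial σ E1) ≠ 0 := by
      rw [Ne, C_eq_zero]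
      intro h
      exact hb (IsFractionRing.injective ET E1 (h.trans (map_zero _).symm))
    exact (mul_eq_zero.1 hg0.symm).resolve_left hb'
  -- growth
  let ψ : K →+* K2 := (algebraMap KT K2).comp C
  let ω : k0 →+* E1 := (algebraMap ET E1).comp C
  have hωψ : ∀ c, ψ (algebraMap k0 K c) = algebraMap E1 K2 (ω c) := by
    intro c
    change algebraMap KT K2 (C (algebraMap k0 K c)) = φ (algebraMap ET E1 (C c))
    rw [hφ, map_C]
  have hyspan : ∀ o, y o ∈ Submodule.span E1 (ψ '' (img k0 x 1 : Set K)) := by
    rintro (_ | i)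
    · change algebraMap KT K2 (∑ j, X j * C (x j)) ∈ _
      rw [map_sum]
      refine Submodule.sum_mem _ fun j _ => ?_
      have h1 : algebraMap KT K2 (X j * C (x j)) =
          (algebraMap ET E1 (X j)) • ψ (x j) := by
        rw [Algebra.smul_def, hφ', hφ, map_X, map_mul]
        rfl
      rw [h1]
      exact Submodule.smul_mem _ _ (Submodule.subset_span ⟨x j, x_mem_img x j, rfl⟩)
    · exact Submodule.subset_span ⟨v i, hvx i, rfl⟩
  have hfin : ∀ t, FiniteDimensional k0 (img k0 x t) := fun t => by
    unfold img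
    infer_instance
  have hδ' : ∀ t : ℕ, (Fintype.card σ).factorial * Module.finrank E1 (img E1 y t) ≤
      δ * (t + C0) ^ Fintype.card σ := by
    intro t
    refine le_trans (Nat.mul_le_mul_left _ ?_) (hδ t)
    have := hfin t
    obtain ⟨h1, h2⟩ := finrank_span_image_le ω ψ hωψ (img k0 x t)
    exact (Submodule.finrank_mono (img_le_span x ω ψ hωψ y hyspan t)).trans h1
  have hcard : Fintype.card (Option σ) = Fintype.card σ + 1 := Fintype.card_option
  obtain ⟨g0, hg0, hg0'⟩ := exists_rel_of_growth (Fintype.card σ) hcard y δ C0 hδ'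
  obtain ⟨F, hF, hker⟩ := exists_gen_option y hyind g0 hg0 hg0'
  have hFδ : F.totalDegree ≤ δ := totalDegree_le_of_growth (Fintype.card σ) hcard y δ C0 hδ' F
    hF.ne_zero fun g hg => (hker g).1 hg
  have hcharE : ((Nat.factorial δ : ℕ) : E1) ≠ 0 := by
    have h1 := map_natCast ω (Nat.factorial δ)
    rw [← h1]
    exact (map_ne_zero ω).2 hchar
  have hder := aeval_pderiv_ne y hyind F hF hker δ hFδ hcharE
  obtain ⟨b, Φ, hb, hΦ⟩ := exists_clear (R := ET) F
  have hb0 : algebraMap ET E1 b ≠ 0 := fun h =>
    hb (IsFractionRing.injective ET E1 (h.trans (map_zero _).symm))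
  refine ⟨Φ, ?_, ?_, ?_⟩
  · have h1 : (map (algebraMap ET E1) Φ).totalDegree = Φ.totalDegree := by
      unfold totalDegree
      rw [support_map_of_injective Φ (IsFractionRing.injective ET E1)]
    rw [← h1, hΦ]
    refine (totalDegree_mul _ _).trans ?_
    rw [totalDegree_C, zero_add]
    exact hFδ
  · apply hinjK
    rw [← hev, hΦ, map_mul, (hker F).2 dvd_rfl, mul_zero, map_zero]
  · intro h
    have h1 := hev (pderiv none Φ)
    rw [h, map_zero, ← pderiv_map, hΦ, pderiv_C_mul, map_mul, aeval_C] at h1
    rcases mul_eq_zero.1 h1 with h2 | h2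
    · exact (map_ne_zero _).2 hb0 h2
    · exact hder h2

end gen

end Pool.Agent.N98
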