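import Mathlib

/-!
The relations of `r + 1` elements of transcendence degree `r` are the multiples of one relation.
-/

set_option autoImplicit false
set_option linter.unusedVariables false
set_option linter.unusedSectionVars false

namespace Pool.Agent.N98

open Polynomial in
/-- The kernel of a homomorphism from a polynomial ring over a factorial ring to a field, which is
injective on the constants, is principal. -/
theorem exists_gen {R K : Type*} [CommRing R] [IsDomain R] [UniqueFactorizationMonoid R]
    [Field K] (φ : R[X] →+* K) (hinj : Function.Injective (φ.comp C)) (g0 : R[X]) (hg0 : g0 ≠ 0)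
    (hg : φ g0 = 0) : ∃ F : R[X], Irreducible F ∧ ∀ g, φ g = 0 ↔ F ∣ g := by
  classical
  have hC : ∀ c : R, φ (C c) = 0 → c = 0 := fun c hc =>
    hinj ((hc.trans (map_zero (φ.comp C)).symm))
  have hP : (RingHom.ker φ).IsPrime := RingHom.ker_isPrime φ
  have hbot : RingHom.ker φ ≠ ⊥ := by
    intro h
    apply hg0
    have : g0 ∈ RingHom.ker φ := hg
    rwa [h, Ideal.mem_bot] at this
  obtain ⟨F, hFm, hF⟩ := hP.exists_mem_prime_of_ne_bot hbot
  have hF0 : φ F = 0 := hFm
  have hdeg : F.natDegree ≠ 0 := by
    intro h
    rw [natDegree_eq_zero] at h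
    obtain ⟨c, rfl⟩ := h
    exact hF.ne_zero (by rw [hC c hF0, C_0])
  have hprim : F.IsPrimitive := hF.irreducible.isPrimitive hdeg
  refine ⟨F, hF.irreducible, fun g => ⟨fun hgφ => ?_, fun h => ?_⟩⟩
  · let L := FractionRing R
    let ψ : L →+* K := IsFractionRing.lift hinj
    have hψ : ∀ a : R, ψ (algebraMap R L a) = φ (C a) := fun a => IsFractionRing.lift_algebraMap hinj a
    have hev : ∀ q : R[X], (q.map (algebraMap R L)).eval₂ ψ (φ X) = φ q := by
      intro q
      rw [eval₂_map]
      have h1 : ψ.comp (algebraMap R L) = φ.comp C := RingHom.ext hψ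
      rw [h1]
      induction q using Polynomial.induction_on' with
      | add p q hp hq => rw [eval₂_add, hp, hq, map_add]
      | monomial n a =>
        rw [eval₂_monomial, ← C_mul_X_pow_eq_monomial, map_mul, map_pow, RingHom.comp_apply]
    have hirr : Irreducible (F.map (algebraMap R L)) :=
      (hprim.irreducible_iff_irreducible_map_fraction_map (K := L)).1 hF.irreducible
    refine hprim.dvd_of_fraction_map_dvd_fraction_map (K := L) ?_
    by_contra hnd
    obtain ⟨a, b, hab⟩ := (hirr.coprime_iff_not_dvd).2 hnd
    have h2 := congrArg (fun q : L[X] => q.eval₂ ψ (φ X)) hab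
    simp only [eval₂_add, eval₂_mul, eval₂_one, hev, hF0, hgφ, mul_zero, add_zero] at h2
    exact zero_ne_one h2
  · obtain ⟨q, rfl⟩ := h
    rw [map_mul, hF0, zero_mul]

section mv

variable {E K : Type*} [Field E] [Field K] [Algebra E K]

/-- The kernel is principal, for variables indexed by `Option σ`. -/
theorem exists_gen_option {σ : Type*} (y : Option σ → K)
    (hy : AlgebraicIndependent E fun i => y (some i)) (g0 : MvPolynomial (Option σ) E)
    (hg0 : g0 ≠ 0) (hg : MvPolynomial.aeval y g0 = 0) :
    ∃ F : MvPolynomial (Option σ) E, Irreducible F ∧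
      ∀ g, MvPolynomial.aeval y g = 0 ↔ F ∣ g := by
  let e := MvPolynomial.optionEquivLeft E σ
  obtain ⟨F, hF, hF'⟩ := exists_gen (R := MvPolynomial σ E) (K := K)
    (((MvPolynomial.aeval y : MvPolynomial (Option σ) E →ₐ[E] K) :
      MvPolynomial (Option σ) E →+* K).comp (e.symm : Polynomial (MvPolynomial σ E) →+* _)) (by
      have h1 : (((MvPolynomial.aeval y : MvPolynomial (Option σ) E →ₐ[E] K) :
          MvPolynomial (Option σ) E →+* K).comp
          (e.symm : Polynomial (MvPolynomial σ E) →+* _)).comp Polynomial.C =
          ((MvPolynomial.aeval fun i => y (some i) : MvPolynomial σ E →ₐ[E] K) :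
            MvPolynomial σ E →+* K) := by
        apply MvPolynomial.ringHom_ext
        · intro r
          simp only [RingHom.comp_apply, RingHom.coe_coe, e]
          rw [MvPolynomial.optionEquivLeft_symm_C_C]
          simp
        · intro i
          simp only [RingHom.comp_apply, RingHom.coe_coe, e]
          rw [MvPolynomial.optionEquivLeft_symm_C_X]
          simp
      rw [h1]
      exact hy) (e g0) (by
      intro h
      exact hg0 (e.injective (h.trans (map_zero e).symm))) (by
      simp only [RingHom.comp_apply, RingHom.coe_coe]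
      rw [e.symm_apply_apply]
      exact hg)
  refine ⟨e.symm F, (MulEquiv.irreducible_iff e.symm).2 hF, fun g => ?_⟩
  have h2 := hF' (e g)
  simp only [RingHom.comp_apply, RingHom.coe_coe] at h2
  rw [e.symm_apply_apply] at h2
  rw [h2]
  constructor
  · intro h
    have := map_dvd e.symm h
    rwa [e.symm_apply_apply] at this
  · intro h
    have := map_dvd e h
    rwa [e.apply_symm_apply] at this

end mv

end Pool.Agent.N98
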