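import Mathlib

/-!
Valuations of `K (ρ)`, `ρ` a root of a polynomial, and the values of another polynomial.
-/

set_option autoImplicit false
set_option linter.unusedVariables false

universe u

open Polynomial

namespace Pool.Agent.N98

section val

variable {F : Type*} [Field F] (V : ValuationSubring F)

/-- A polynomial has a root near `x`. -/
lemma exists_root_near {L : F[X]} (hL : L.Splits) {x φ : F} (hx : L.eval x ≠ 0)
    (hφ : φ * L.derivative.eval x = L.eval x) :
    ∃ ρ, L.eval ρ = 0 ∧ V.valuation (x - ρ) ≤ V.valuation φ := by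
  by_contra hcon
  push Not at hcon
  have h1 := hL.eval_derivative_eq_eval_mul_sum hx
  have h2 : φ * (L.roots.map fun z ↦ 1 / (x - z)).sum = 1 := by
    rw [h1] at hφ
    apply mul_left_cancel₀ hx
    rw [mul_one, mul_left_comm]
    exact hφ
  have hL0 : L ≠ 0 := by
    rintro rfl
    exact hx (by simp)
  have key : ∀ s : Multiset F, (∀ z ∈ s, L.eval z = 0) →
      V.valuation (φ * (s.map fun z ↦ 1 / (x - z)).sum) < 1 := by
    intro s
    induction s using Multiset.induction_on with
    | empty => intro _; simp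
    | cons a s ih =>
      intro h
      rw [Multiset.map_cons, Multiset.sum_cons, mul_add]
      refine Valuation.map_add_lt _ ?_ (ih fun z hz => h z (Multiset.mem_cons_of_mem hz))
      have h3 := hcon a (h a (Multiset.mem_cons_self a s))
      have h4 : 0 < V.valuation (x - a) := zero_le.trans_lt h3
      rw [mul_one_div, map_div₀]
      exact (div_lt_one₀ h4).2 h3
  have h3 := key L.roots (fun z hz => (mem_roots hL0).1 hz)
  rw [h2, map_one] at h3
  exact lt_irrefl _ h3

/-- The Taylor expansion. -/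
lemma val_eval_sub_le (G : F[X]) {x φ ρ μ : F} (hρ : V.valuation (x - ρ) ≤ V.valuation φ)
    (hμ : ∀ j, 1 ≤ j → V.valuation (φ ^ j * (hasseDeriv j G).eval x) ≤ V.valuation μ) :
    V.valuation (G.eval ρ - G.eval x) ≤ V.valuation μ := by
  have h1 : G.eval ρ = (taylor x G).eval (ρ - x) := by
    rw [taylor_eval, sub_add_cancel]
  have h2 : G.eval ρ - G.eval x = ∑ j ∈ Finset.range (taylor x G).natDegree,
      (hasseDeriv (j + 1) G).eval x * (ρ - x) ^ (j + 1) := by
    rw [h1, eval_eq_sum_range, Finset.sum_range_succ', pow_zero, mul_one, taylor_coeff_zero,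
      add_sub_cancel_right]
    refine Finset.sum_congr rfl fun j _ => ?_
    rw [taylor_coeff]
  rw [h2]
  refine Valuation.map_sum_le _ fun j _ => ?_
  refine le_trans ?_ (hμ (j + 1) (by omega))
  rw [map_mul, map_mul, map_pow, map_pow, mul_comm]
  refine mul_le_mul_left ?_ _
  refine pow_le_pow_left' ?_ _
  rw [← Valuation.map_neg, neg_sub]
  exact hρ

/-- The value of a root is determined by two coefficients. -/
lemma exists_coeff (Q : F[X]) (hQ : Q ≠ 0) {η : F} (hη : η ≠ 0) (h : Q.eval η = 0) :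
    ∃ a b, a < b ∧ b ≤ Q.natDegree ∧ Q.coeff a ≠ 0 ∧ Q.coeff b ≠ 0 ∧
      V.valuation (Q.coeff a * η ^ a) = V.valuation (Q.coeff b * η ^ b) := by
  classical
  have hne : Q.support.Nonempty := by
    rw [Finset.nonempty_iff_ne_empty, ne_eq, support_eq_empty]
    exact hQ
  obtain ⟨i, hi, hmax⟩ := Finset.exists_max_image Q.support
    (fun j => V.valuation (Q.coeff j * η ^ j)) hne
  have hi0 : Q.coeff i ≠ 0 := mem_support_iff.1 hi
  have hti : V.valuation (Q.coeff i * η ^ i) ≠ 0 := by
    rw [ne_eq, map_eq_zero]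
    exact mul_ne_zero hi0 (pow_ne_zero _ hη)
  have h1 : ∑ j ∈ Q.support, Q.coeff j * η ^ j = 0 := by
    rw [eval_eq_sum, Polynomial.sum_def] at h
    exact h
  have h2 : ∃ j ∈ Q.support.erase i, V.valuation (Q.coeff i * η ^ i) ≤
      V.valuation (Q.coeff j * η ^ j) := by
    by_contra hcon
    push Not at hcon
    have h3 : V.valuation (∑ j ∈ Q.support.erase i, Q.coeff j * η ^ j) <
        V.valuation (Q.coeff i * η ^ i) := Valuation.map_sum_lt _ hti hcon
    rw [← Finset.add_sum_erase _ _ hi] at h1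
    have h4 : ∑ j ∈ Q.support.erase i, Q.coeff j * η ^ j = -(Q.coeff i * η ^ i) := by
      linear_combination h1
    rw [h4, Valuation.map_neg] at h3
    exact lt_irrefl _ h3
  obtain ⟨j, hj, hle⟩ := h2
  obtain ⟨hji, hj'⟩ := Finset.mem_erase.1 hj
  have heq := le_antisymm hle (hmax j hj')
  have hdeg : ∀ l ∈ Q.support, l ≤ Q.natDegree := fun l hl =>
    le_natDegree_of_ne_zero (mem_support_iff.1 hl)
  rcases lt_or_gt_of_ne hji with h3 | h3
  · exact ⟨j, i, h3, hdeg i hi, mem_support_iff.1 hj', hi0, heq.symm⟩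
  · exact ⟨i, j, h3, hdeg j hj', hi0, mem_support_iff.1 hj', heq⟩

/-- The dichotomy for one valuation. -/
theorem val_dich {L G Q : F[X]} (hL : L.Splits) {x φ μ : F} (hx : L.eval x ≠ 0)
    (hφ : φ * L.derivative.eval x = L.eval x)
    (hμ : ∀ j, 1 ≤ j → V.valuation (φ ^ j * (hasseDeriv j G).eval x) ≤ V.valuation μ)
    (hQ : Q ≠ 0) (hLQ : L ∣ Q.comp G) (N : ℕ) (hN0 : N ≠ 0)
    (hN : ∀ a b, a < b → b ≤ Q.natDegree → b - a ∣ N) :
    V.valuation (G.eval x) ≤ V.valuation μ ∨ ∃ a b, a < b ∧ b ≤ Q.natDegree ∧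
      Q.coeff a ≠ 0 ∧ Q.coeff b ≠ 0 ∧
      V.valuation (G.eval x ^ N) = V.valuation ((Q.coeff a / Q.coeff b) ^ (N / (b - a))) ∧
      V.valuation (μ ^ N) < V.valuation ((Q.coeff a / Q.coeff b) ^ (N / (b - a))) := by
  obtain ⟨ρ, hρ0, hρ⟩ := exists_root_near V hL hx hφ
  have h1 := val_eval_sub_le V G hρ hμ
  have h2 : Q.eval (G.eval ρ) = 0 := by
    obtain ⟨P, hP⟩ := hLQ
    rw [← eval_comp, hP, eval_mul, hρ0, zero_mul]
  by_cases h3 : V.valuation (G.eval ρ) ≤ V.valuation μ
  · left
    have h4 : G.eval x = G.eval ρ - (G.eval ρ - G.eval x) := by ring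
    rw [h4]
    exact Valuation.map_sub_le _ h3 h1
  · right
    rw [not_le] at h3
    have hη : G.eval ρ ≠ 0 := by
      intro h0
      rw [h0, map_zero] at h3
      exact not_lt_zero h3
    have hη' : V.valuation (G.eval ρ) ≠ 0 := by rwa [ne_eq, map_eq_zero]
    obtain ⟨a, b, hab, hb, ha0, hb0, he⟩ := exists_coeff V Q hQ hη h2
    have h4 : V.valuation (G.eval x) = V.valuation (G.eval ρ) := by
      have h5 : G.eval x = G.eval ρ - (G.eval ρ - G.eval x) := by ring
      rw [h5]
      exact Valuation.map_sub_eq_of_lt_left _ (h1.trans_lt h3)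
    have h5 : V.valuation (G.eval ρ) ^ (b - a) = V.valuation (Q.coeff a / Q.coeff b) := by
      have hb0' : V.valuation (Q.coeff b) ≠ 0 := by rwa [ne_eq, map_eq_zero]
      rw [map_div₀, eq_div_iff hb0']
      rw [map_mul, map_mul, map_pow, map_pow] at he
      have h6 : b = a + (b - a) := by omega
      have h7 : V.valuation (G.eval ρ) ^ a ≠ 0 := pow_ne_zero _ hη'
      apply mul_right_cancel₀ h7
      rw [he]
      conv_rhs => rw [h6, pow_add]
      rw [mul_comm, mul_comm (V.valuation (eval ρ G) ^ (b - a)), mul_left_comm]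
      congr 1
      congr 1
      rw [← h6]
    have h6 : V.valuation ((Q.coeff a / Q.coeff b) ^ (N / (b - a))) =
        V.valuation (G.eval ρ) ^ N := by
      rw [map_pow, ← h5, ← pow_mul, Nat.mul_div_cancel' (hN a b hab hb)]
    refine ⟨a, b, hab, hb, ha0, hb0, ?_, ?_⟩
    · rw [h6, map_pow, h4]
    · rw [h6, map_pow]
      exact pow_lt_pow_left₀ h3 zero_le hN0

end val

end Pool.Agent.N98
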